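import Pool.Agent.H559.BI.Stm

set_option autoImplicit false

/-! # The formula of Bateman and Horn in short intervals: the uniform form -/

open Finset Filter Topology Polynomial
open Pool.Agent.H559.BS (Limit)
open Pool.Agent.H559.HY (Arr evl rts arr Sg cnt RS box Cut OK Good Sys CF)

namespace Pool.Agent.H559.BI

namespace Fin

/-- the uniform form for families -/
theorem short (hs : S_seq) {k D : ℕ} (z W : ℕ → ℕ) (hz : Limit z) (hW : Cut W) (b : ℕ → ℕ)
    (hOK : OK z W b) (f : Fin k → ℤ[X]) (hD : ∀ i, (f i).natDegree ≤ D)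
    (hd : ∀ i, 0 < (f i).natDegree) (hl : ∀ i, 0 < (f i).leadingCoeff)
    (hinj : Function.Injective f) (S : ℝ)
    (hS : Tendsto (fun w : ℕ => Sg (arr D f) w) atTop (𝓝 S)) (A : ℕ) (hA : 1 ≤ A)
    (ε : ℝ) (hε : 0 < ε) : ∀ᶠ x : ℕ in atTop, ∀ Y : ℕ, x ≤ Y → Y ≤ x ^ A →
      |(cnt (arr D (shp f Y)) (RS z W b) 0 x : ℝ) *
        (∏ i, ((f i).natDegree * Real.log Y)) / x - S| ≤ ε := by
  classical
  have hex : ∀ x : ℕ, ∃ X : ℕ, (1 ≤ x → x ≤ X ∧ X ≤ x ^ A) ∧
      ((|(cnt (arr D (shp f X)) (RS z W b) 0 x : ℝ) *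
        (∏ i, ((f i).natDegree * Real.log X)) / x - S| ≤ ε) →
      ∀ Y : ℕ, x ≤ Y → Y ≤ x ^ A → |(cnt (arr D (shp f Y)) (RS z W b) 0 x : ℝ) *
        (∏ i, ((f i).natDegree * Real.log Y)) / x - S| ≤ ε) := by
    intro x
    by_cases h1 : ∀ Y : ℕ, x ≤ Y → Y ≤ x ^ A → |(cnt (arr D (shp f Y)) (RS z W b) 0 x : ℝ) *
        (∏ i, ((f i).natDegree * Real.log Y)) / x - S| ≤ ε
    · exact ⟨x, fun h2 => ⟨le_rfl, Nat.le_self_pow (by omega) x⟩, fun _ => h1⟩
    · push Not at h1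
      obtain ⟨Y, h2, h3, h4⟩ := h1
      exact ⟨Y, fun _ => ⟨h2, h3⟩, fun h5 => absurd h5 (not_le.2 h4)⟩
  choose X hX1 hX2 using hex
  have h1 := hs k D z W hz hW b hOK f hD hd hl hinj S hS A hA X (by
    filter_upwards [eventually_ge_atTop 1] with x hx
    exact (hX1 x hx).1) (by
    filter_upwards [eventually_ge_atTop 1] with x hx
    exact (hX1 x hx).2)
  have h2 := (tendsto_iff_norm_sub_tendsto_zero.1 h1).eventually_le_const hε
  filter_upwards [h2] with x hx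
  rw [Real.norm_eq_abs] at hx
  exact hX2 x hx

/-- the count in words -/
theorem cnt_shp (hi : S_inv) {D : ℕ} (F : Finset ℤ[X]) (hF : Sys F)
    (hD : D = ∑ i, (Pool.Agent.H559.HY.fam F i).natDegree) (A : Set ℕ) (m0 : ℕ)
    (hm0 : ∀ n : ℕ, m0 ≤ n → ∀ i, 0 < (Pool.Agent.H559.HY.fam F i).eval (n : ℤ)) (Y y : ℕ)
    (hY : m0 ≤ Y) :
    cnt (arr D (shp (Pool.Agent.H559.HY.fam F) Y)) A 0 y = cI A F Y y := by
  classical
  have hinj : Function.Injective (Pool.Agent.H559.HY.fam F) := by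
    intro i j h
    by_contra hij
    exact (Pool.Agent.H559.HY.fam_ne F hF i j hij).1 h
  have hev := (hi F.card D (Pool.Agent.H559.HY.fam F)
    (fun i => by rw [hD]; exact Pool.Agent.H559.HY.fam_le F i)
    (Pool.Agent.H559.HY.fam_deg F hF) hinj).2.2.2
  have hv : ∀ n : ℕ, m0 ≤ n → ∀ i, ((Pool.Agent.H559.HY.fam F i).eval (n : ℤ)).toNat =
      ((F.equivFin.symm i : ℤ[X]).eval (n : ℤ)).natAbs := by
    intro n hn i
    have h1 := hm0 n hn i
    have h2 : ((Pool.Agent.H559.HY.fam F i).eval (n : ℤ)).toNat =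
        ((Pool.Agent.H559.HY.fam F i).eval (n : ℤ)).natAbs := by omega
    rw [h2]
    have h3 : |(Pool.Agent.H559.HY.fam F i).eval (n : ℤ)| =
        |(F.equivFin.symm i : ℤ[X]).eval (n : ℤ)| := by
      unfold Pool.Agent.H559.HY.fam
      rw [Pool.Agent.H559.HY.pos_eval]
    have h4 := congrArg Int.toNat h3
    rw [← Int.natCast_natAbs, ← Int.natCast_natAbs, Int.toNat_natCast, Int.toNat_natCast] at h4
    exact h4
  have hiff : ∀ n : ℕ, m0 ≤ n → ((∀ i, ((Pool.Agent.H559.HY.fam F i).eval (n : ℤ)).toNat ∈ A) ↔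
      ∀ f ∈ F, (f.eval (n : ℤ)).natAbs ∈ A) := by
    intro n hn
    constructor
    · intro h f hf
      have := h (F.equivFin ⟨f, hf⟩)
      rw [hv n hn, Equiv.symm_apply_apply] at this
      exact this
    · intro h i
      rw [hv n hn]
      exact h _ (F.equivFin.symm i).2
  unfold cnt cI
  rw [← Set.ncard_coe_finset]
  refine Set.ncard_congr (fun m _ => Y + m) ?_ ?_ ?_
  · intro m hm
    simp only [coe_filter, mem_Ioc, Set.mem_ofPred_eq] at hm ⊢
    refine ⟨by omega, by omega, ?_⟩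
    rw [← hiff (Y + m) (by omega)]
    intro i
    have := hm.2 i
    rw [hev] at this
    exact this
  · intro m n _ _ h3
    omega
  · intro n hn
    simp only [Set.mem_ofPred_eq] at hn
    refine ⟨n - Y, ?_, by omega⟩
    simp only [coe_filter, mem_Ioc, Set.mem_ofPred_eq]
    refine ⟨by omega, fun i => ?_⟩
    rw [hev]
    have e : Y + (n - Y) = n := by omega
    rw [e]
    exact (hiff n (by omega)).2 hn.2.2 i

end Fin

open Pool.Agent.H559.BI.Fin in
theorem t_fin (hi : S_inv) (hs : S_seq) : S_fin := by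
  intro z W hz hW b hOK F hF S hC δ ε hδ hε
  obtain ⟨A, hA⟩ := exists_nat_ge (max 1 (1 / δ))
  have hA1 : 1 ≤ A := by
    have : (1 : ℝ) ≤ A := (le_max_left _ _).trans hA
    exact_mod_cast this
  have hAδ : 1 ≤ δ * A := by
    have h1 := (le_max_right _ _).trans hA
    rw [div_le_iff₀ hδ] at h1
    linarith
  have hinj : Function.Injective (Pool.Agent.H559.HY.fam F) := by
    intro i j h
    by_contra hij
    exact (Pool.Agent.H559.HY.fam_ne F hF i j hij).1 h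
  have hS : Tendsto (fun w : ℕ => Sg (arr (∑ i, (Pool.Agent.H559.HY.fam F i).natDegree)
      (Pool.Agent.H559.HY.fam F)) w) atTop (𝓝 S) :=
    hC.congr fun x => Pool.Agent.H559.HY.CF_eq F x
  have h1 := short hs z W hz hW b hOK (Pool.Agent.H559.HY.fam F) (Pool.Agent.H559.HY.fam_le F)
    (Pool.Agent.H559.HY.fam_deg F hF) (Pool.Agent.H559.HY.fam_lead F hF) hinj S hS A hA1 ε hε
  obtain ⟨y0, hy0⟩ := eventually_atTop.1 h1
  have hgr : ∀ᶠ m : ℕ in atTop, ∀ i, 0 < (Pool.Agent.H559.HY.fam F i).eval (m : ℤ) := by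
    refine eventually_all.2 fun i => ?_
    filter_upwards [Pool.Agent.H559.HY.growth (Pool.Agent.H559.HY.fam F i)
      (Pool.Agent.H559.HY.fam_deg F hF i) (Pool.Agent.H559.HY.fam_lead F hF i),
      eventually_ge_atTop 1] with m h1 h2
    have hm0 : (0 : ℝ) < m := by exact_mod_cast h2
    have h3 : (0 : ℝ) < (((Pool.Agent.H559.HY.fam F i).eval (m : ℤ) : ℤ) : ℝ) :=
      lt_of_lt_of_le (by positivity) h1.1
    exact_mod_cast h3
  obtain ⟨m0, hm0⟩ := eventually_atTop.1 hgr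
  have h2 : Tendsto (fun n : ℕ => (n : ℝ) ^ δ) atTop atTop :=
    (tendsto_rpow_atTop hδ).comp tendsto_natCast_atTop_atTop
  filter_upwards [h2.eventually_ge_atTop (y0 : ℝ), eventually_ge_atTop 1,
    eventually_ge_atTop m0] with Y h3 h4 hYm y h5 h6
  have h7 : y0 ≤ y := by exact_mod_cast h3.trans h5
  have h8 : Y ≤ y ^ A := by
    have hX : (1 : ℝ) ≤ Y := by exact_mod_cast h4
    have h9 : (Y : ℝ) ≤ (y : ℝ) ^ A := by
      calc (Y : ℝ) = (Y : ℝ) ^ (1 : ℝ) := (Real.rpow_one _).symm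
        _ ≤ (Y : ℝ) ^ (δ * A) := Real.rpow_le_rpow_of_exponent_le hX hAδ
        _ = ((Y : ℝ) ^ δ) ^ A := by rw [Real.rpow_mul (by linarith), Real.rpow_natCast]
        _ ≤ (y : ℝ) ^ A := pow_le_pow_left₀ (by positivity) h5 A
    exact_mod_cast h9
  have h9 := hy0 y h7 Y h6 h8
  rw [cnt_shp hi F hF rfl (RS z W b) m0 hm0 Y y hYm] at h9
  have h10 : ∏ f ∈ F, ((f.natDegree : ℝ) * Real.log Y) =
      ∏ i, (((Pool.Agent.H559.HY.fam F i).natDegree : ℝ) * Real.log Y) := by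
    rw [Pool.Agent.H559.HY.prod_fam F fun f => (f.natDegree : ℝ) * Real.log Y]
    refine prod_congr rfl fun i _ => ?_
    unfold Pool.Agent.H559.HY.fam
    rw [Pool.Agent.H559.HY.pos_deg]
  rw [h10]
  exact h9

end Pool.Agent.H559.BI

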