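import Pool.Agent.H559.BI.Stm

set_option autoImplicit false
set_option linter.all false

/-! # The formula of Bateman and Horn in short intervals: shifts of polynomial systems -/

open Finset Filter Topology Polynomial
open Pool.Agent.H559.HY (Arr evl rts arr Sg cnt RS box Cut OK Good Sys CF)

namespace Pool.Agent.H559.BI

namespace Inv

open Pool.Agent.H559.HY (cls cls_eq_iff evl_mod evl_arr mem_box)

variable {k : ℕ}

lemma deg_sh (q : ℤ[X]) (Y : ℕ) : (q.comp (X + C (Y : ℤ))).natDegree = q.natDegree := by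
  rw [natDegree_comp, natDegree_X_add_C, mul_one]

lemma lc_sh (q : ℤ[X]) (Y : ℕ) : (q.comp (X + C (Y : ℤ))).leadingCoeff = q.leadingCoeff := by
  rw [leadingCoeff_comp (by rw [natDegree_X_add_C]; exact one_ne_zero), leadingCoeff_X_add_C,
    one_pow, mul_one]

lemma ev (D : ℕ) (f : Fin k → ℤ[X]) (hD : ∀ i, (f i).natDegree ≤ D) (Y m : ℕ) (i : Fin k) :
    evl (arr D (shp f Y) i) m = (f i).eval ((Y + m : ℕ) : ℤ) := by
  rw [evl_arr D (shp f Y) (fun i => (deg_sh (f i) Y).trans_le (hD i))]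
  unfold shp
  rw [eval_comp, eval_add, eval_X, eval_C]
  push_cast
  rw [add_comm]

lemma ev' (D : ℕ) (f : Fin k → ℤ[X]) (hD : ∀ i, (f i).natDegree ≤ D) (Y m : ℕ) (i : Fin k) :
    evl (arr D (shp f Y) i) m = evl (arr D f i) (Y + m) := by
  rw [ev D f hD, evl_arr D f hD]

lemma cls_sh (D : ℕ) (f : Fin k → ℤ[X]) (hD : ∀ i, (f i).natDegree ≤ D) (Y : ℕ) (i : Fin k)
    (p m : ℕ) (hp : 0 < p) :
    cls (arr D (shp f Y)) i p m = 0 ↔ cls (arr D f) i p (Y + m) = 0 := by
  rw [cls_eq_iff _ _ _ _ _ hp hp, cls_eq_iff _ _ _ _ _ hp hp, ev' D f hD]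

lemma cls_mod {D : ℕ} (C : Arr k D) (i : Fin k) (p m : ℕ) : cls C i p (m % p) = cls C i p m := by
  unfold cls
  rw [← evl_mod]

lemma card_sh (D : ℕ) (f : Fin k → ℤ[X]) (hD : ∀ i, (f i).natDegree ≤ D) (Y p : ℕ) (hp : 0 < p) :
    (rts (arr D (shp f Y)) p 0).card = (rts (arr D f) p 0).card := by
  refine card_nbij' (fun s => (s + Y) % p) (fun s => (s + (p - Y % p)) % p) ?_ ?_ ?_ ?_
  · intro s hs
    simp only [rts, coe_filter, mem_range, Set.mem_ofPred_eq] at hs ⊢
    obtain ⟨h1, i, h2⟩ := hs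
    refine ⟨Nat.mod_lt _ hp, i, ?_⟩
    rw [cls_sh D f hD _ _ _ _ hp] at h2
    rw [cls_mod, add_comm]
    exact h2
  · intro s hs
    simp only [rts, coe_filter, mem_range, Set.mem_ofPred_eq] at hs ⊢
    obtain ⟨h1, i, h2⟩ := hs
    refine ⟨Nat.mod_lt _ hp, i, ?_⟩
    rw [cls_sh D f hD _ _ _ _ hp, ← cls_mod, Nat.add_mod_mod]
    have h3 := Nat.mod_lt Y hp
    have h4 : Y + (s + (p - Y % p)) = s + p * (Y / p + 1) := by
      have h5 := Nat.div_add_mod Y p
      rw [Nat.mul_add, mul_one]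
      omega
    rw [h4, Nat.add_mul_mod_self_left, cls_mod]
    exact h2
  · intro s hs
    simp only [rts, coe_filter, mem_range, Set.mem_ofPred_eq] at hs
    have h3 := Nat.mod_lt Y hp
    have h5 := Nat.div_add_mod Y p
    show ((s + Y) % p + (p - Y % p)) % p = s
    rw [Nat.mod_add_mod]
    have h4 : s + Y + (p - Y % p) = s + p * (Y / p + 1) := by
      rw [Nat.mul_add, mul_one]
      omega
    rw [h4, Nat.add_mul_mod_self_left, Nat.mod_eq_of_lt hs.1]
  · intro s hs
    simp only [rts, coe_filter, mem_range, Set.mem_ofPred_eq] at hs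
    have h3 := Nat.mod_lt Y hp
    have h5 := Nat.div_add_mod Y p
    show ((s + (p - Y % p)) % p + Y) % p = s
    rw [Nat.mod_add_mod]
    have h4 : s + (p - Y % p) + Y = s + p * (Y / p + 1) := by
      rw [Nat.mul_add, mul_one]
      omega
    rw [h4, Nat.add_mul_mod_self_left, Nat.mod_eq_of_lt hs.1]

lemma good_sh (D : ℕ) (f : Fin k → ℤ[X]) (hD : ∀ i, (f i).natDegree ≤ D)
    (hd : ∀ i, 0 < (f i).natDegree) (hinj : Function.Injective f) :
    ∃ P0 : ℕ, ∀ Y p : ℕ, p.Prime → P0 < p → Good (arr D (shp f Y)) p := by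
  refine ⟨∑ i, (f i).leadingCoeff.natAbs + ∑ i, ∑ i', (f i - f i').leadingCoeff.natAbs,
    fun Y p hp hP => ⟨fun i => ?_, fun i i' hi => ?_⟩⟩
  · refine ⟨⟨(f i).natDegree, Nat.lt_succ_of_le (hD i)⟩, ?_, ?_⟩
    · intro h
      have := congrArg Fin.val h
      simp only [Fin.val_zero] at this
      have := hd i
      omega
    · intro hdvd
      have h1 : (p : ℤ) ∣ (f i).leadingCoeff := by
        have h0 : (f i).leadingCoeff = ((f i).comp (X + C (Y : ℤ))).coeff (f i).natDegree := by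
          rw [← lc_sh (f i) Y, leadingCoeff, deg_sh]
        rw [h0]
        exact hdvd
      have h2 : p ∣ (f i).leadingCoeff.natAbs := Int.natCast_dvd.1 h1
      have h3 : (f i).leadingCoeff ≠ 0 := by
        rw [Ne, leadingCoeff_eq_zero]
        intro h4
        have := hd i
        rw [h4, natDegree_zero] at this
        omega
      have h4 := Nat.le_of_dvd (Int.natAbs_pos.2 h3) h2
      have h5 : (f i).leadingCoeff.natAbs ≤ ∑ i, (f i).leadingCoeff.natAbs :=
        single_le_sum (f := fun i => (f i).leadingCoeff.natAbs) (fun _ _ => Nat.zero_le _)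
          (mem_univ i)
      omega
  · have h0 : f i - f i' ≠ 0 := sub_ne_zero.2 fun h => hi (hinj h)
    have hdeg : (f i - f i').natDegree ≤ D := (natDegree_sub_le _ _).trans (max_le (hD i) (hD i'))
    refine ⟨⟨(f i - f i').natDegree, Nat.lt_succ_of_le hdeg⟩, ?_⟩
    intro hdvd
    have h1 : (p : ℤ) ∣ (f i - f i').leadingCoeff := by
      have h6 : (f i - f i').leadingCoeff =
          ((f i).comp (X + C (Y : ℤ))).coeff (f i - f i').natDegree -
          ((f i').comp (X + C (Y : ℤ))).coeff (f i - f i').natDegree := by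
        rw [← coeff_sub, ← sub_comp, ← lc_sh (f i - f i') Y, leadingCoeff, deg_sh]
      rw [h6]
      exact hdvd
    have h2 : p ∣ (f i - f i').leadingCoeff.natAbs := Int.natCast_dvd.1 h1
    have h3 : (f i - f i').leadingCoeff ≠ 0 := by
      rw [Ne, leadingCoeff_eq_zero]
      exact h0
    have h4 := Nat.le_of_dvd (Int.natAbs_pos.2 h3) h2
    have h5 : (f i - f i').leadingCoeff.natAbs ≤ ∑ i, ∑ i', (f i - f i').leadingCoeff.natAbs :=
      (single_le_sum (f := fun i' => (f i - f i').leadingCoeff.natAbs)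
        (fun _ _ => Nat.zero_le _) (mem_univ i')).trans
        (single_le_sum (f := fun i => ∑ i', (f i - f i').leadingCoeff.natAbs)
          (fun _ _ => Nat.zero_le _) (mem_univ i))
    omega

lemma coef_sh (D : ℕ) (q : ℤ[X]) (hD : q.natDegree ≤ D) (Y j : ℕ) (hY : 1 ≤ Y) :
    |(q.comp (X + C (Y : ℤ))).coeff j| ≤
      ((∑ a ∈ range (D + 1), (q.coeff a).natAbs * 2 ^ a : ℕ) : ℤ) * (Y : ℤ) ^ D := by
  have hY' : (1 : ℤ) ≤ Y := by exact_mod_cast hY
  rw [comp_eq_sum_left, sum_over_range' q (by intro n; rw [C_0, zero_mul]) (D + 1)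
    (Nat.lt_succ_of_le hD), finset_sum_coeff]
  refine (abs_sum_le_sum_abs _ _).trans ?_
  rw [Nat.cast_sum, sum_mul]
  refine sum_le_sum fun a ha => ?_
  rw [mem_range] at ha
  rw [coeff_C_mul, coeff_X_add_C_pow, abs_mul]
  push_cast
  rw [mul_assoc]
  refine mul_le_mul_of_nonneg_left ?_ (abs_nonneg _)
  rw [abs_mul, abs_of_nonneg (by positivity : (0 : ℤ) ≤ (Y : ℤ) ^ (a - j)),
    abs_of_nonneg (by positivity : (0 : ℤ) ≤ ((a.choose j : ℕ) : ℤ)), mul_comm]
  refine mul_le_mul ?_ ?_ (by positivity) (by positivity)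
  · exact_mod_cast Nat.choose_le_two_pow a j
  · exact pow_le_pow_right₀ hY' (by omega)

end Inv

/-- shifts -/
theorem t_inv : S_inv := by
  intro k D f hD hd hinj
  refine ⟨fun Y w => ?_, Inv.good_sh D f hD hd hinj, ?_, fun Y m i => Inv.ev D f hD Y m i⟩
  · unfold Sg
    refine prod_congr rfl fun p hp => ?_
    rw [Inv.card_sh D f hD Y p (mem_filter.1 hp).2.pos]
  · refine ⟨∑ i, ∑ a ∈ range (D + 1), ((f i).coeff a).natAbs * 2 ^ a, fun Y hY => ?_⟩
    rw [Pool.Agent.H559.HY.mem_box]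
    intro i j
    have h1 := Inv.coef_sh D (f i) (hD i) Y j hY
    have h2 : ∑ a ∈ range (D + 1), ((f i).coeff a).natAbs * 2 ^ a ≤
        ∑ i, ∑ a ∈ range (D + 1), ((f i).coeff a).natAbs * 2 ^ a :=
      single_le_sum (f := fun i => ∑ a ∈ range (D + 1), ((f i).coeff a).natAbs * 2 ^ a)
        (fun _ _ => Nat.zero_le _) (mem_univ i)
    refine h1.trans ?_
    rw [Nat.cast_mul, Nat.cast_pow]
    exact mul_le_mul_of_nonneg_right (by exact_mod_cast h2) (by positivity)

end Pool.Agent.H559.BI
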