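import Pool.Agent.H559.SI.Tup

set_option autoImplicit false

/-! # Tuples in short intervals and residue classes to large smooth moduli: statement -/

open Finset Filter Topology
open Pool.Agent.H559.BS (Limit)
open Pool.Agent.H559.HY (RS Cut OK)
open Pool.Agent.H559.SI (pS)

namespace Pool.Agent.H559.BI

/-- the number of the `v ∈ (X, X + y]`, `v ≡ a (mod q)`, with `v + h ∈ A` for all `h ∈ H` -/
noncomputable def cQ (A : Set ℕ) (H : Finset ℕ) (q a X y : ℕ) : ℕ :=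
  {v : ℕ | X < v ∧ v ≤ X + y ∧ v ≡ a [MOD q] ∧ ∀ h ∈ H, v + h ∈ A}.ncard

/-- TUPLES IN SHORT INTERVALS AND RESIDUE CLASSES, the modulus `q` composed of the primes `≤ P0` and as large as `y X^(-δ)`. PROOF (adaptation of `SI.seq`, `SI.short`, `SI.tup` in SI/Short.lean, SI/Tup.lean, where `q = 1`). Let `a0 = a % q`,
`Y = ⌊(X - a0)/q⌋` (`X ≥ q > a0`), so `v = q (Y + m) + a0`, and the condition `X < v ≤ X + y` means `m ∈ (0, m1]`, `|m1 - y/q| ≤ 1`; put `x = m1 ≥ X^δ - 1`. The system `C i = q X + (q Y + a0 + h_i)` (`h_i` the elements of `H`, `SI.en H`; `arr` of linear polynomials as in `SI.sh`)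
has coefficients `≤ 3X ≤ x^A` with `A ≥ 2/δ + 1`, is `Good` at all primes `p > P0' = max P0 (max H + 1)` (`p ∤ q` and the `h_i` are different modulo `p`), and its values for `0 < m ≤ x` lie between `X` and `3X` (`X + y + max H`, `y ≤ X`). So `OK z W b` (`k0 = 0`, `y = x`, `lo = X`, `hi = 3X`, `B = |H| + 1`) gives
`cQ = (1 + o(1)) x Sg(C, W(TT (1/4) x)) V(z(~X))^|H| + O(x / log^(|H|+1) x)`, uniformly in `q, a, y`, and `V (z X') log X → 1` for `X ≤ X' ≤ 3X` (`SI.V_near`), `log X ≤ (2/δ) log x`. The local factors of `Sg C w` (`w ≥ P0`): for a prime `p ∤ q` the number of the roots is `|H mod p|` (bijection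
`m ↦ q (Y + m) + a0`), for `p ∣ q` there are no roots (`a + h` is prime to `q`), so `Sg C w = pS H w / ∏_{p ∣ q} (1 - |H mod p|/p)`; every `|H mod p| < p` for `p ∣ q`, since the class of `-a` is missed. The product over `p ∣ q` takes finitely many values (`p ≤ P0`), all `> 0`, and `pS H w → S`. Finally `x q / y → 1`. -/
def S_pt : Prop := ∀ z W : ℕ → ℕ, Limit z → Cut W → ∀ b : ℕ → ℕ, OK z W b → ∀ H : Finset ℕ, H.Nonempty → ∀ S : ℝ, Tendsto (pS H) atTop (𝓝 S) →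
  ∀ (P0 : ℕ) (δ ε : ℝ), 0 < δ → 0 < ε → ∀ᶠ X : ℕ in atTop, ∀ q a y : ℕ, 1 ≤ q → (∀ p, p.Prime → p ∣ q → p ≤ P0) →
    (∀ h ∈ H, Nat.Coprime (a + h) q) → (X : ℝ) ^ δ * q ≤ y → y ≤ X →
    |(cQ (RS z W b) H q a X y : ℝ) * Real.log X ^ H.card * q / y * ∏ p ∈ q.primeFactors, (1 - ((H.image (· % p)).card : ℝ) / p) - S| ≤ ε

end Pool.Agent.H559.BI
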