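import Pool.Agent.H559.BI.PStm

set_option autoImplicit false

/-! # Tuples in short intervals and residue classes to large smooth moduli -/

open Finset Filter Topology Polynomial
open Pool.Agent.T2H32.BF (V V_pos V_anti V_ratio recip_le mertens)
open Pool.Agent.H559.BS (Limit TT TT_le TT_ge TT_top log_TT V_TT log_pow_le log_top g g_pos)
open Pool.Agent.H559.HY (Arr evl rts rts_sub arr evl_arr Sg cnt RS box mem_box Cut OK Good cls cls_eq_iff Sg_nonneg)
open Pool.Agent.H559.SI (pS en en_inj en_all rts_card_en mxh le_mxh V_near sh cls_sh)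

namespace Pool.Agent.H559.BI.Pt

variable {k : ℕ}

/-- the forms `K + q m + h i` -/
def shq (q K : ℕ) (h : Fin k → ℕ) : Arr k 1 := fun i j => if j = 0 then ((K + h i : ℕ) : ℤ) else (q : ℤ)

theorem evl_shq (q K : ℕ) (h : Fin k → ℕ) (i : Fin k) (m : ℕ) :
    evl (shq q K h i) m = ((K + q * m + h i : ℕ) : ℤ) := by
  unfold evl shq
  rw [Fin.sum_univ_two]
  simp
  ring

theorem cls_shq (q K : ℕ) (h : Fin k → ℕ) (i : Fin k) (p m : ℕ) (hp : 0 < p) :
    cls (shq q K h) i p m = 0 ↔ p ∣ K + q * m + h i := by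
  rw [cls_eq_iff _ _ _ _ _ hp hp, evl_shq, Nat.cast_zero, sub_zero]
  exact Int.natCast_dvd_natCast

/-- there are no roots modulo the primes of `q` -/
theorem rts_shq_dvd (q K : ℕ) (h : Fin k → ℕ) (hc : ∀ i, Nat.Coprime (K + h i) q) (p : ℕ) (hp : p.Prime) (hpq : p ∣ q) :
    (rts (shq q K h) p 0).card = 0 := by
  rw [card_eq_zero, eq_empty_iff_forall_notMem]
  intro s hs
  simp only [rts, mem_filter, mem_range] at hs
  obtain ⟨_, i, h2⟩ := hs
  rw [cls_shq _ _ _ _ _ _ hp.pos] at h2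
  have e : K + q * s + h i = K + h i + q * s := by ring
  rw [e] at h2
  have h3 : p ∣ K + h i := (Nat.dvd_add_iff_left (hpq.mul_right s)).2 h2
  exact Nat.Prime.not_coprime_iff_dvd.2 ⟨p, hp, h3, hpq⟩ (hc i)

/-- the number of the roots modulo the other primes -/
theorem rts_shq_ndvd (q K : ℕ) (h : Fin k → ℕ) (p : ℕ) (hp : p.Prime) (hpq : ¬ p ∣ q) :
    (rts (shq q K h) p 0).card = (rts (sh 0 h) p 0).card := by
  have hco : Nat.Coprime p q := (Nat.Prime.coprime_iff_not_dvd hp).2 hpq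
  have hinj : Set.InjOn (fun s => (q * s + K) % p) (range p : Set ℕ) := by
    intro s hs t ht hst
    rw [coe_range, Set.mem_Iio] at hs ht
    have h1 : q * s + K ≡ q * t + K [MOD p] := hst
    have h2 : q * s ≡ q * t [MOD p] := Nat.ModEq.add_right_cancel' K h1
    have h3 : s ≡ t [MOD p] := Nat.ModEq.cancel_left_of_coprime hco h2
    exact Nat.ModEq.eq_of_lt_of_lt h3 hs ht
  have himg : (range p).image (fun s => (q * s + K) % p) = range p := by
    refine eq_of_subset_of_card_le ?_ ?_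
    · intro t ht
      rw [mem_image] at ht
      obtain ⟨s, _, rfl⟩ := ht
      exact mem_range.2 (Nat.mod_lt _ hp.pos)
    · rw [card_image_of_injOn hinj]
  have e : rts (sh 0 h) p 0 = (rts (shq q K h) p 0).image (fun s => (q * s + K) % p) := by
    ext t
    rw [mem_image]
    constructor
    · intro ht
      have ht2 := ht
      simp only [rts, mem_filter, mem_range] at ht2
      obtain ⟨h1, i, h2⟩ := ht2
      have h3 : t ∈ (range p).image (fun s => (q * s + K) % p) := by rw [himg]; exact mem_range.2 h1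
      rw [mem_image] at h3
      obtain ⟨s, hs, hst⟩ := h3
      refine ⟨s, ?_, hst⟩
      simp only [rts, mem_filter]
      refine ⟨hs, i, ?_⟩
      rw [cls_sh _ _ _ _ _ hp.pos, zero_add, ← hst, Nat.dvd_iff_mod_eq_zero, Nat.mod_add_mod] at h2
      rw [cls_shq _ _ _ _ _ _ hp.pos, Nat.dvd_iff_mod_eq_zero, ← h2]
      congr 1
      ring
    · rintro ⟨s, hs, hst⟩
      simp only [rts, mem_filter] at hs ⊢
      obtain ⟨h1, i, h2⟩ := hs
      rw [cls_shq _ _ _ _ _ _ hp.pos, Nat.dvd_iff_mod_eq_zero] at h2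
      refine ⟨by rw [← hst]; exact mem_range.2 (Nat.mod_lt _ hp.pos), i, ?_⟩
      rw [cls_sh _ _ _ _ _ hp.pos, zero_add, ← hst, Nat.dvd_iff_mod_eq_zero, Nat.mod_add_mod, ← h2]
      congr 1
      ring
  rw [e, card_image_of_injOn]
  exact hinj.mono (by
    intro s hs
    exact mem_coe.2 (rts_sub _ _ _ (mem_coe.1 hs)))

/-- the local factors -/
theorem Sg_shq (H : Finset ℕ) (q K : ℕ) (hq : 1 ≤ q) (hc : ∀ h ∈ H, Nat.Coprime (K + h) q) (w : ℕ)
    (hw : ∀ p, p.Prime → p ∣ q → p ≤ w) :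
    Sg (shq q K (en H)) w * ∏ p ∈ q.primeFactors, (1 - ((H.image (· % p)).card : ℝ) / p) = pS H w := by
  have e : q.primeFactors = ((range (w + 1)).filter Nat.Prime).filter (fun p => p ∣ q) := by
    ext p
    rw [Nat.mem_primeFactors, mem_filter, mem_filter, mem_range]
    constructor
    · rintro ⟨h1, h2, _⟩
      exact ⟨⟨by have := hw p h1 h2; omega, h1⟩, h2⟩
    · rintro ⟨⟨_, h1⟩, h2⟩
      exact ⟨h1, h2, by omega⟩
  rw [e, prod_filter]
  unfold Sg pS
  rw [← prod_mul_distrib]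
  refine prod_congr rfl fun p hp => ?_
  have hpp := (mem_filter.1 hp).2
  by_cases hpq : p ∣ q
  · rw [if_pos hpq, rts_shq_dvd q K (en H) ((en_all H (fun h => Nat.Coprime (K + h) q)).2 hc) p hpp hpq]
    simp only [Nat.cast_zero, zero_div, sub_zero]
    ring
  · rw [if_neg hpq, mul_one, rts_shq_ndvd q K (en H) p hpp hpq, rts_card_en H p hpp.pos]

theorem good_shq (q K : ℕ) (h : Fin k → ℕ) (hh : Function.Injective h) (p : ℕ) (_hp : p.Prime) (hlt : mxh h < p)
    (hpq : ¬ p ∣ q) : Good (shq q K h) p := by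
  constructor
  · intro i
    refine ⟨1, by simp, ?_⟩
    unfold shq
    simp only [Fin.isValue, one_ne_zero, if_false]
    intro h3
    exact hpq (Int.natCast_dvd_natCast.1 h3)
  · intro i i' hii
    refine ⟨0, ?_⟩
    unfold shq
    simp only [Fin.isValue, if_true]
    intro h3
    have h4 : h i ≠ h i' := fun h5 => hii (hh h5)
    have h5 := le_mxh h i
    have h6 := le_mxh h i'
    have h7 : ((K + h i : ℕ) : ℤ) - ((K + h i' : ℕ) : ℤ) ≠ 0 := by omega
    have h8 := Int.le_of_dvd (abs_pos.2 h7) ((dvd_abs _ _).2 h3)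
    rcases abs_cases (((K + h i : ℕ) : ℤ) - ((K + h i' : ℕ) : ℤ)) with h9 | h9 <;> omega

theorem box_shq (q K : ℕ) (h : Fin k → ℕ) (B : ℕ) (h1 : q ≤ B) (hX : K + mxh h ≤ B) : shq q K h ∈ box k 1 B := by
  rw [mem_box]
  intro i j
  unfold shq
  have := le_mxh h i
  split_ifs
  · rw [abs_of_nonneg (by positivity)]
    exact_mod_cast (by omega : K + h i ≤ B)
  · rw [abs_of_nonneg (by positivity)]
    exact_mod_cast h1

/-- the first member of the progression -/
theorem exK (q a X : ℕ) (hq : 1 ≤ q) (hX : q ≤ X) : ∃ K, K ≡ a [MOD q] ∧ K ≤ X ∧ X < K + q := by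
  have h1 : a % q < q := Nat.mod_lt _ hq
  have h2 := Nat.div_add_mod (X - a % q) q
  have h3 := Nat.mod_lt (X - a % q) hq
  refine ⟨a % q + q * ((X - a % q) / q), ?_, ?_, ?_⟩
  · unfold Nat.ModEq
    rw [Nat.add_mul_mod_self_left, Nat.mod_mod]
  · omega
  · omega

/-- the count in words -/
theorem cnt_shq (T : Set ℕ) (H : Finset ℕ) (q a K X y : ℕ) (hq : 1 ≤ q) (hK : K ≡ a [MOD q]) (hK1 : K ≤ X)
    (hK2 : X < K + q) : cnt (shq q K (en H)) T 0 ((X + y - K) / q) = cQ T H q a X y := by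
  classical
  unfold cnt cQ
  rw [← Set.ncard_coe_finset]
  have hdm := Nat.div_add_mod (X + y - K) q
  have hml := Nat.mod_lt (X + y - K) hq
  refine Set.ncard_congr (fun m _ => K + q * m) ?_ ?_ ?_
  · intro m hm
    simp only [coe_filter, mem_Ioc, Set.mem_ofPred_eq] at hm ⊢
    obtain ⟨⟨h1, h2⟩, h3⟩ := hm
    rw [zero_add] at h2
    have h4 : q * 1 ≤ q * m := Nat.mul_le_mul_left q h1
    have h5 : q * m ≤ q * ((X + y - K) / q) := Nat.mul_le_mul_left q h2
    refine ⟨by omega, by omega, ?_, ?_⟩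
    · refine Nat.ModEq.trans ?_ hK
      unfold Nat.ModEq
      rw [Nat.add_mul_mod_self_left]
    · refine (en_all H (fun h => K + q * m + h ∈ T)).1 fun i => ?_
      have := h3 i
      rw [evl_shq, Int.toNat_natCast] at this
      exact this
  · intro m n _ _ h3
    have h3' : K + q * m = K + q * n := h3
    exact Nat.eq_of_mul_eq_mul_left hq (by omega)
  · intro v hv
    simp only [Set.mem_ofPred_eq] at hv
    obtain ⟨h1, h2, h3, h4⟩ := hv
    have h5 : K ≡ v [MOD q] := hK.trans h3.symm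
    have h6 : q ∣ v - K := (Nat.modEq_iff_dvd' (by omega)).1 h5
    obtain ⟨m, hm⟩ := h6
    have h7 : K + q * m = v := by omega
    have h8 : 0 < m := by
      rcases Nat.eq_zero_or_pos m with h9 | h9
      · rw [h9, mul_zero] at hm
        omega
      · exact h9
    have h9 : m ≤ (X + y - K) / q := by
      rw [Nat.le_div_iff_mul_le hq]
      rw [mul_comm] at hm
      omega
    refine ⟨m, ?_, h7⟩
    simp only [coe_filter, mem_Ioc, Set.mem_ofPred_eq]
    refine ⟨⟨h8, by omega⟩, fun i => ?_⟩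
    rw [evl_shq, Int.toNat_natCast, h7]
    exact (en_all H (fun h => v + h ∈ T)).2 h4 i

theorem alg1 (α x s v L P q y G : ℝ) (k : ℕ) :
    (α * (x * (s * v ^ k)) - x / P) * L ^ k * q / y * G =
      α * (x * q / y * (s * G * (v * L) ^ k)) - x * q / y * (L ^ k / P) * G := by
  rw [mul_pow]
  ring

theorem alg2 (α x s v L P q y G : ℝ) (k : ℕ) :
    (α * (x * (s * v ^ k)) + x / P) * L ^ k * q / y * G =
      α * (x * q / y * (s * G * (v * L) ^ k)) + x * q / y * (L ^ k / P) * G := by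
  rw [mul_pow]
  ring

/-- the product over the primes of `q` -/
theorem G_bd (H : Finset ℕ) (q : ℕ) : 0 ≤ ∏ p ∈ q.primeFactors, (1 - ((H.image (· % p)).card : ℝ) / p) ∧
    ∏ p ∈ q.primeFactors, (1 - ((H.image (· % p)).card : ℝ) / p) ≤ 1 := by
  have h1 : ∀ p ∈ q.primeFactors, 0 ≤ 1 - ((H.image (· % p)).card : ℝ) / p ∧
      1 - ((H.image (· % p)).card : ℝ) / p ≤ 1 := by
    intro p hp
    have hp0 := (Nat.prime_of_mem_primeFactors hp).pos
    have hp1 : (0 : ℝ) < p := by exact_mod_cast hp0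
    have h2 : (H.image (· % p)).card ≤ p := by
      have h3 : H.image (· % p) ⊆ range p := by
        intro r hr
        rw [mem_image] at hr
        obtain ⟨h, _, rfl⟩ := hr
        exact mem_range.2 (Nat.mod_lt _ hp0)
      have h4 := card_le_card h3
      rwa [card_range] at h4
    have h3 : ((H.image (· % p)).card : ℝ) ≤ p := by exact_mod_cast h2
    have h4 : ((H.image (· % p)).card : ℝ) / p ≤ 1 := by rw [div_le_one hp1]; exact h3
    have h5 : 0 ≤ ((H.image (· % p)).card : ℝ) / p := by positivity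
    exact ⟨by linarith, by linarith⟩
  exact ⟨prod_nonneg fun p hp => (h1 p hp).1, prod_le_one (fun p hp => (h1 p hp).1) fun p hp => (h1 p hp).2⟩

/-- **The asymptotic formula along the sequences.** -/
theorem seq (z W : ℕ → ℕ) (hz : Limit z) (hW : Cut W) (b : ℕ → ℕ) (hOK : OK z W b) (H : Finset ℕ)
    (S : ℝ) (hS : Tendsto (pS H) atTop (𝓝 S)) (P0 : ℕ) (δ : ℝ) (hδ : 0 < δ) (X q a y : ℕ → ℕ)
    (hX : Tendsto X atTop atTop) (h1 : ∀ j, 1 ≤ q j) (h2 : ∀ j p, p.Prime → p ∣ q j → p ≤ P0)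
    (h3 : ∀ j, ∀ h ∈ H, Nat.Coprime (a j + h) (q j)) (h4 : ∀ j, (X j : ℝ) ^ δ * q j ≤ y j) (h5 : ∀ j, y j ≤ X j) :
    Tendsto (fun j => (cQ (RS z W b) H (q j) (a j) (X j) (y j) : ℝ) * Real.log (X j) ^ H.card * q j / y j *
      ∏ p ∈ (q j).primeFactors, (1 - ((H.image (· % p)).card : ℝ) / p)) atTop (𝓝 S) := by
  -- the sizes
  have hq1 : ∀ j, (1 : ℝ) ≤ q j := fun j => by exact_mod_cast h1 j
  have hXδ : Tendsto (fun j => (X j : ℝ) ^ δ) atTop atTop :=
    ((tendsto_rpow_atTop hδ).comp tendsto_natCast_atTop_atTop).comp hX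
  have hqX : ∀ j, 1 ≤ X j → q j ≤ y j := by
    intro j hj
    have h6 : (1 : ℝ) ≤ (X j : ℝ) ^ δ := Real.one_le_rpow (by exact_mod_cast hj) hδ.le
    have h7 : (q j : ℝ) ≤ y j := by
      have := h4 j
      have := hq1 j
      nlinarith
    exact_mod_cast h7
  have hexK : ∀ j, ∃ K, 1 ≤ X j → (K ≡ a j [MOD q j] ∧ K ≤ X j ∧ X j < K + q j) := by
    intro j
    by_cases hj : 1 ≤ X j
    · obtain ⟨K, hK⟩ := exK (q j) (a j) (X j) (h1 j) ((hqX j hj).trans (h5 j))
      exact ⟨K, fun _ => hK⟩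
    · exact ⟨0, fun h => absurd h hj⟩
  choose K hK using hexK
  obtain ⟨x, hx⟩ : ∃ x : ℕ → ℕ, ∀ j, x j = (X j + y j - K j) / q j := ⟨_, fun j => rfl⟩
  have hqx : ∀ j, 1 ≤ X j → q j * x j < y j + q j ∧ y j < q j * x j + q j ∧ q j * x j ≤ X j + y j - K j := by
    intro j hj
    obtain ⟨_, hK1, hK2⟩ := hK j hj
    have hdm := Nat.div_add_mod (X j + y j - K j) (q j)
    have hml := Nat.mod_lt (X j + y j - K j) (h1 j)
    rw [← hx j] at hdm
    omega
  have hxy : ∀ j, 1 ≤ X j → x j ≤ y j := by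
    intro j hj
    have h6 := (hqx j hj).1
    by_contra hc
    rw [not_le] at hc
    have h7 : q j * (y j + 1) ≤ q j * x j := Nat.mul_le_mul_left _ hc
    have h8 : 1 * y j ≤ q j * y j := Nat.mul_le_mul_right _ (h1 j)
    rw [Nat.mul_add, mul_one] at h7
    omega
  have hxlow : ∀ j, 1 ≤ X j → (X j : ℝ) ^ δ ≤ x j + 1 := by
    intro j hj
    have h6 : (y j : ℝ) < q j * x j + q j := by exact_mod_cast (hqx j hj).2.1
    have h7 := h4 j
    have h8 : (q j : ℝ) * (X j : ℝ) ^ δ ≤ q j * (x j + 1) := by linarith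
    exact le_of_mul_le_mul_left h8 (by have := hq1 j; linarith)
  have hX1 : ∀ᶠ j in atTop, 1 ≤ X j := hX.eventually_ge_atTop 1
  have hxt : Tendsto x atTop atTop := by
    rw [← tendsto_natCast_atTop_iff (R := ℝ)]
    have h6 : Tendsto (fun j => (X j : ℝ) ^ δ - 1) atTop atTop :=
      tendsto_atTop_add_const_right _ _ hXδ
    refine tendsto_atTop_mono' atTop ?_ h6
    filter_upwards [hX1] with j hj
    have := hxlow j hj
    linarith
  obtain ⟨A, hA⟩ := exists_nat_ge (max 1 (1 / δ))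
  have hA1 : 1 ≤ A := by
    have : (1 : ℝ) ≤ A := (le_max_left _ _).trans hA
    exact_mod_cast this
  have hAδ : 1 ≤ δ * A := by
    have h1 := (le_max_right _ _).trans hA
    rw [div_le_iff₀ hδ] at h1
    linarith
  have hXx : ∀ᶠ j in atTop, X j ≤ x j ^ (2 * A) := by
    filter_upwards [hX1, hxt.eventually_ge_atTop 2] with j hj hj2
    have hXr : (1 : ℝ) ≤ X j := by exact_mod_cast hj
    have hx2 : (2 : ℝ) ≤ x j := by exact_mod_cast hj2
    have h9 : (X j : ℝ) ≤ (x j : ℝ) ^ (2 * A) := by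
      calc (X j : ℝ) = (X j : ℝ) ^ (1 : ℝ) := (Real.rpow_one _).symm
        _ ≤ (X j : ℝ) ^ (δ * A) := Real.rpow_le_rpow_of_exponent_le hXr hAδ
        _ = ((X j : ℝ) ^ δ) ^ A := by rw [Real.rpow_mul (by linarith), Real.rpow_natCast]
        _ ≤ ((x j : ℝ) ^ 2) ^ A := by
            refine pow_le_pow_left₀ (by positivity) ?_ A
            have := hxlow j hj
            nlinarith
        _ = (x j : ℝ) ^ (2 * A) := by rw [← pow_mul]
    exact_mod_cast h9
  -- the ratio
  have hr : Tendsto (fun j => (x j : ℝ) * q j / y j) atTop (𝓝 1) := by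
    rw [tendsto_iff_norm_sub_tendsto_zero]
    have h6 : Tendsto (fun j => ((X j : ℝ) ^ δ)⁻¹) atTop (𝓝 0) := hXδ.inv_tendsto_atTop
    refine squeeze_zero' (Eventually.of_forall fun j => norm_nonneg _) ?_ h6
    filter_upwards [hX1] with j hj
    have hXr : (1 : ℝ) ≤ X j := by exact_mod_cast hj
    have h7 : (0 : ℝ) < (X j : ℝ) ^ δ := by positivity
    have h8 := hq1 j
    have h9 := h4 j
    have h10 : (0 : ℝ) < y j := by nlinarith
    have h11 : (q j : ℝ) * x j < y j + q j := by exact_mod_cast (hqx j hj).1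
    have h12 : (y j : ℝ) < q j * x j + q j := by exact_mod_cast (hqx j hj).2.1
    have e : (x j : ℝ) * q j / y j - 1 = (q j * x j - y j) / y j := by
      field_simp
    rw [e, Real.norm_eq_abs, abs_div, abs_of_pos h10, div_le_iff₀ h10, inv_mul_eq_div, le_div_iff₀ h7]
    have h13 : |(q j : ℝ) * x j - y j| ≤ q j := abs_le.2 ⟨by linarith, by linarith⟩
    calc |(q j : ℝ) * x j - y j| * (X j : ℝ) ^ δ ≤ q j * (X j : ℝ) ^ δ :=
          mul_le_mul_of_nonneg_right h13 h7.le
      _ ≤ y j := by linarith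
  -- the sieving level
  have hwt : Tendsto (fun j : ℕ => W (TT (1 / 4) (x j))) atTop atTop := by
    have h6 : Tendsto (fun n : ℕ => (W n : ℝ)) atTop atTop := by
      have h7 := hW.top.atTop_mul_atTop₀ log_top
      refine h7.congr' ?_
      filter_upwards [log_top.eventually_ge_atTop 1] with n hn
      rw [div_mul_cancel₀ _ (by linarith : Real.log n ≠ 0)]
    exact ((tendsto_natCast_atTop_iff.1 h6).comp (TT_top (1 / 4) (by norm_num))).comp hxt
  have hS' := hS.comp hwt
  have hV1 := V_near z hz X X hX (Eventually.of_forall fun x => le_rfl) (Eventually.of_forall fun x => by omega)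
  have hV2 := V_near z hz X (fun j => 3 * X j) hX (Eventually.of_forall fun x => by omega)
    (Eventually.of_forall fun x => le_rfl)
  have hlx : Tendsto (fun j => Real.log (x j)) atTop atTop := log_top.comp hxt
  have hE : Tendsto (fun j : ℕ => Real.log (X j) ^ H.card / Real.log (x j) ^ (H.card + 1)) atTop (𝓝 0) := by
    have h6 : Tendsto (fun j : ℕ => ((2 * A : ℕ) : ℝ) ^ H.card / Real.log (x j)) atTop (𝓝 0) :=
      tendsto_const_nhds.div_atTop hlx
    refine squeeze_zero' ?_ ?_ h6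
    · filter_upwards with j
      have h7 := Real.log_natCast_nonneg (x j)
      have h8 := Real.log_natCast_nonneg (X j)
      positivity
    · filter_upwards [hX1, hXx, hlx.eventually_ge_atTop 1] with j a1 a2 a3
      have hX0 : (0 : ℝ) < X j := by exact_mod_cast (by omega : 0 < X j)
      have h7 : Real.log (X j) ≤ ((2 * A : ℕ) : ℝ) * Real.log (x j) := by
        rw [← Real.log_pow]
        refine Real.log_le_log hX0 ?_
        exact_mod_cast a2
      have h8 := Real.log_natCast_nonneg (X j)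
      have hL : 0 < Real.log (x j) := by linarith
      rw [pow_succ, ← div_div]
      rw [div_le_div_iff_of_pos_right hL, div_le_iff₀ (by positivity), ← mul_pow]
      exact pow_le_pow_left₀ h8 h7 _
  have hrE := hr.mul hE
  rw [one_mul] at hrE
  -- the two bounds
  have key : ∀ n : ℕ, ∃ U Lw : ℕ → ℝ, Tendsto U atTop (𝓝 ((1 + 1 / ((n : ℝ) + 1)) * S)) ∧
      Tendsto Lw atTop (𝓝 ((1 - 1 / ((n : ℝ) + 1)) * S)) ∧
      ∀ᶠ j : ℕ in atTop, Lw j ≤ (cQ (RS z W b) H (q j) (a j) (X j) (y j) : ℝ) * Real.log (X j) ^ H.card * q j / y j *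
        ∏ p ∈ (q j).primeFactors, (1 - ((H.image (· % p)).card : ℝ) / p) ∧
        (cQ (RS z W b) H (q j) (a j) (X j) (y j) : ℝ) * Real.log (X j) ^ H.card * q j / y j *
        ∏ p ∈ (q j).primeFactors, (1 - ((H.image (· % p)).card : ℝ) / p) ≤ U j := by
    intro n
    refine ⟨fun j => (1 + 1 / ((n : ℝ) + 1)) * ((x j : ℝ) * q j / y j * (pS H (W (TT (1 / 4) (x j))) *
        (V (z (X j)) * Real.log (X j)) ^ H.card)) + (x j : ℝ) * q j / y j * (Real.log (X j) ^ H.card /
        Real.log (x j) ^ (H.card + 1)), fun j => (1 - 1 / ((n : ℝ) + 1)) * ((x j : ℝ) * q j / y j *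
        (pS H (W (TT (1 / 4) (x j))) * (V (z (3 * X j)) * Real.log (X j)) ^ H.card)) - (x j : ℝ) * q j / y j *
        (Real.log (X j) ^ H.card / Real.log (x j) ^ (H.card + 1)), ?_, ?_, ?_⟩
    · have h6 := ((hr.mul (hS'.mul (hV1.pow H.card))).const_mul (1 + 1 / ((n : ℝ) + 1))).add hrE
      rw [one_pow, mul_one, one_mul, add_zero] at h6
      exact h6
    · have h6 := ((hr.mul (hS'.mul (hV2.pow H.card))).const_mul (1 - 1 / ((n : ℝ) + 1))).sub hrE
      rw [one_pow, mul_one, one_mul, sub_zero] at h6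
      exact h6
    · filter_upwards [hX1, hXx, hxt.eventually (hOK H.card 1 (2 * A + 2) (max P0 (mxh (en H))) (H.card + 1) n (by omega)),
        hxt.eventually_ge_atTop 3, hX.eventually_ge_atTop (mxh (en H)), hwt.eventually_ge_atTop P0] with j a1 a2 a3 a4 a5 a6
      obtain ⟨hK0, hK1, hK2⟩ := hK j a1
      obtain ⟨c1, c2, c3⟩ := hqx j a1
      have c4 := hxy j a1
      have c5 := h5 j
      have c6 := hqX j a1
      have c7 := h1 j
      have hxA : 3 * X j ≤ x j ^ (2 * A + 2) := by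
        calc 3 * X j ≤ 3 * x j ^ (2 * A) := by omega
          _ ≤ x j ^ 2 * x j ^ (2 * A) := Nat.mul_le_mul_right _ (by nlinarith)
          _ = x j ^ (2 * A + 2) := by ring
      have hTx : TT (1 / 4) (x j) ≤ x j := by
        have h3 := TT_le (1 / 4) (x j)
        have h4 : (x j : ℝ) ^ (1 / 4 : ℝ) ≤ (x j : ℝ) ^ (1 : ℝ) :=
          Real.rpow_le_rpow_of_exponent_le (by exact_mod_cast (by omega : 1 ≤ x j)) (by norm_num)
        rw [Real.rpow_one] at h4
        exact_mod_cast h3.trans h4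
      have hcop : ∀ h ∈ H, Nat.Coprime (K j + h) (q j) := by
        intro h hh
        have h6 := h3 j h hh
        have h7 : K j + h ≡ a j + h [MOD q j] := Nat.ModEq.add_right h hK0
        unfold Nat.Coprime
        rw [Nat.ModEq.gcd_eq h7]
        exact h6
      obtain ⟨b1, b2⟩ := a3 (shq (q j) (K j) (en H)) (box_shq _ _ _ _ (by omega) (by omega))
        (fun p hp hlt => good_shq _ _ _ (en_inj H) p hp (lt_of_le_of_lt (le_max_right _ _) hlt)
          (fun hd => absurd (h2 j p hp hd) (not_le.2 (lt_of_le_of_lt (le_max_left _ _) hlt)))) 0 (x j)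
        (fun _ => X j) (fun _ => 3 * X j) (by omega) le_rfl (fun _ => by omega) (fun _ => hxA) (fun m hm i => by
          rw [mem_Ioc, zero_add] at hm
          rw [evl_shq]
          have h6 := le_mxh (en H) i
          have h7 : q j * 1 ≤ q j * m := Nat.mul_le_mul_left _ hm.1
          have h8 : q j * m ≤ q j * x j := Nat.mul_le_mul_left _ hm.2
          constructor
          · exact_mod_cast (by omega : X j ≤ K j + q j * m + en H i)
          · exact_mod_cast (by omega : K j + q j * m + en H i ≤ 3 * X j))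
      rw [prod_const, card_univ, Fintype.card_fin] at b1 b2
      have hcnt : cnt (shq (q j) (K j) (en H)) (RS z W b) 0 (x j) = cQ (RS z W b) H (q j) (a j) (X j) (y j) := by
        rw [hx j]
        exact cnt_shq _ H (q j) (a j) (K j) (X j) (y j) c7 hK0 hK1 hK2
      rw [hcnt] at b1 b2
      have hSgG := Sg_shq H (q j) (K j) c7 hcop (W (TT (1 / 4) (x j))) (fun p hp hd => (h2 j p hp hd).trans a6)
      obtain ⟨hG0, hG1⟩ := G_bd H (q j)
      have hLk : 0 ≤ Real.log (X j) ^ H.card := pow_nonneg (Real.log_natCast_nonneg _) _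
      have hmon : ∀ c d : ℝ, c ≤ d → c * Real.log (X j) ^ H.card * q j / y j *
          (∏ p ∈ (q j).primeFactors, (1 - ((H.image (· % p)).card : ℝ) / p)) ≤
          d * Real.log (X j) ^ H.card * q j / y j *
          (∏ p ∈ (q j).primeFactors, (1 - ((H.image (· % p)).card : ℝ) / p)) := by
        intro c d hcd
        refine mul_le_mul_of_nonneg_right ?_ hG0
        refine div_le_div_of_nonneg_right ?_ (Nat.cast_nonneg _)
        refine mul_le_mul_of_nonneg_right ?_ (Nat.cast_nonneg _)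
        exact mul_le_mul_of_nonneg_right hcd hLk
      have hg : 0 ≤ (x j : ℝ) * q j / y j * (Real.log (X j) ^ H.card / Real.log (x j) ^ (H.card + 1)) := by
        have := Real.log_natCast_nonneg (x j)
        positivity
      constructor
      · have h6 := hmon _ _ b1
        rw [alg1, hSgG] at h6
        refine le_trans ?_ h6
        have h7 := mul_le_of_le_one_right hg hG1
        linarith
      · have h6 := hmon _ _ b2
        rw [alg2, hSgG] at h6
        refine le_trans h6 ?_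
        have h7 := mul_le_of_le_one_right hg hG1
        linarith
  have hinv : Tendsto (fun n : ℕ => 1 / ((n : ℝ) + 1)) atTop (𝓝 0) := tendsto_one_div_add_atTop_nhds_zero_nat
  rw [tendsto_order]
  constructor
  · intro c hc
    have h6 : Tendsto (fun n : ℕ => (1 - 1 / ((n : ℝ) + 1)) * S) atTop (𝓝 ((1 - 0) * S)) :=
      (tendsto_const_nhds.sub hinv).mul_const S
    rw [sub_zero, one_mul] at h6
    obtain ⟨n, hn⟩ := (h6.eventually_const_lt hc).exists
    obtain ⟨U, Lw, _, h7, h8⟩ := key n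
    filter_upwards [h7.eventually_const_lt hn, h8] with j b1 b2
    exact lt_of_lt_of_le b1 b2.1
  · intro c hc
    have h6 : Tendsto (fun n : ℕ => (1 + 1 / ((n : ℝ) + 1)) * S) atTop (𝓝 ((1 + 0) * S)) :=
      (tendsto_const_nhds.add hinv).mul_const S
    rw [add_zero, one_mul] at h6
    obtain ⟨n, hn⟩ := (h6.eventually_lt_const hc).exists
    obtain ⟨U, Lw, h7, _, h8⟩ := key n
    filter_upwards [h7.eventually_lt_const hn, h8] with j b1 b2
    exact lt_of_le_of_lt b2.2 b1

end Pool.Agent.H559.BI.Pt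

namespace Pool.Agent.H559.BI

open Pt

theorem t_pt : S_pt := by
  intro z W hz hW b hOK H _ S hS P0 δ ε hδ hε
  by_contra hcon
  rw [Filter.not_eventually] at hcon
  obtain ⟨φ, hφ, hφ2⟩ := Filter.extraction_of_frequently_atTop hcon
  simp only [not_forall] at hφ2
  choose q a y h1 h2 h3 h4 h5 h6 using hφ2
  have h7 := Pt.seq z W hz hW b hOK H S hS P0 δ hδ φ q a y hφ.tendsto_atTop h1 h2 h3 h4 h5
  have h8 := (tendsto_iff_norm_sub_tendsto_zero.1 h7).eventually_le_const hε
  obtain ⟨j, hj⟩ := h8.exists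
  rw [Real.norm_eq_abs] at hj
  exact h6 j hj

end Pool.Agent.H559.BI
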