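import Pool.Agent.H559.BI.Quad
import Pool.Agent.H559.SI.Tup

set_option autoImplicit false

/-! # The constants of the two quadruple shapes, for sets of shifts -/

open Finset Filter Topology Polynomial
open Pool.Agent.H559.HY (Sys CF omF)
open Pool.Agent.H559.SI (pS)

namespace Pool.Agent.H559.BI.QP

open Pool.Agent.H559.BI.Quad

theorem image_big (H : Finset ℕ) (p : ℕ) (h : ∀ a ∈ H, a < p) : H.image (· % p) = H := by
  have e : H.image (· % p) = H.image id := Finset.image_congr fun a ha => Nat.mod_eq_of_lt (h a ha)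
  rw [e, Finset.image_id]

theorem cases_prime (p : ℕ) (hp : p.Prime) : p = 2 ∨ p = 3 ∨ p = 5 ∨ p = 7 ∨ 11 ≤ p := by
  by_contra hcon
  push Not at hcon
  obtain ⟨h2, h3, h5, h7, h11⟩ := hcon
  have h0 := hp.two_le
  interval_cases p <;> revert hp <;> norm_num at *

theorem nu1 (p : ℕ) (hp : p.Prime) : (({0, 2, 6, 8} : Finset ℕ).image (· % p)).card = omF Q1 p := by
  rw [Q1_eq]
  rcases cases_prime p hp with rfl | rfl | rfl | rfl | h
  · rw [om1_2]; decide
  · rw [om1_3]; decide
  · rw [om1_ge hp (by norm_num)]; decide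
  · rw [om1_ge hp (by norm_num)]; decide
  · rw [om1_ge hp (by omega), image_big _ _ (by
      intro a ha
      simp only [mem_insert, mem_singleton] at ha
      omega)]
    decide

theorem nu2 (p : ℕ) (hp : p.Prime) : (({0, 4, 6, 10} : Finset ℕ).image (· % p)).card = omF Q2 p := by
  rw [Q2_eq]
  rcases cases_prime p hp with rfl | rfl | rfl | rfl | h
  · rw [om2_2]; decide
  · rw [om2_3]; decide
  · rw [om2_5]; decide
  · rw [om2_ge hp (by norm_num)]; decide
  · rw [om2_ge hp (by omega), image_big _ _ (by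
      intro a ha
      simp only [mem_insert, mem_singleton] at ha
      omega)]
    decide

theorem card1 : Q1.card = 4 := by rw [Q1_eq, card_FH, c1]

theorem card2 : Q2.card = 4 := by rw [Q2_eq, card_FH, c2]

theorem pS1 (x : ℕ) : pS {0, 2, 6, 8} x = CF Q1 x := by
  unfold pS CF
  refine prod_congr rfl fun p hp => ?_
  rw [nu1 p (mem_filter.1 hp).2, card1]
  rfl

theorem pS2 (x : ℕ) : pS {0, 4, 6, 10} x = CF Q2 x := by
  unfold pS CF
  refine prod_congr rfl fun p hp => ?_
  rw [nu2 p (mem_filter.1 hp).2, card2]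
  rfl

theorem lims : ∃ K : ℝ, 0 < K ∧ Tendsto KQ atTop (𝓝 K) ∧ Tendsto (pS {0, 2, 6, 8}) atTop (𝓝 (27 / 2 * K)) ∧
    Tendsto (pS {0, 4, 6, 10}) atTop (𝓝 (27 * K)) := by
  obtain ⟨-, -, -, -, K, h1, h2, h3, h4, -⟩ := t_quad
  refine ⟨K, h1, h2, ?_, ?_⟩
  · exact h3.congr fun x => (pS1 x).symm
  · exact h4.congr fun x => (pS2 x).symm

end Pool.Agent.H559.BI.QP
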