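import Pool.Agent.H559.BI.Stm
import Pool.Agent.H559.PV.SPos

set_option autoImplicit false

/-! # The constants of the two quadruple shapes: statement -/

open Finset Filter Topology Polynomial
open Pool.Agent.H559.HY (Sys CF omF)

namespace Pool.Agent.H559.BI

/-- the shape `(n, n + 2, n + 6, n + 8)` -/
noncomputable def Q1 : Finset ℤ[X] := {X, X + C 2, X + C 6, X + C 8}

/-- the shape `(n, n + 4, n + 6, n + 10)` -/
noncomputable def Q2 : Finset ℤ[X] := {X, X + C 4, X + C 6, X + C 10}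

/-- the partial products of the Hardy-Littlewood constant -/
noncomputable def KQ (N : ℕ) : ℝ := ∏ q ∈ (range N).filter (fun q => q.Prime ∧ 3 < q), (q : ℝ) ^ 3 * (q - 4) / (q - 1) ^ 4

/-- THE CONSTANTS. PROOF. `CF F x = ∏_{p ≤ x} (1 - ω_F(p)/p) / (1 - 1/p)^|F|`, `omF F p` = the number of the `n < p` with `p ∣ ∏ f n` (definitions in HY/FinBH.lean). For `Q1`: `ω(2) = 1`, `ω(3) = 2` and
`ω(p) = 4` for `p ≥ 5` (the differences 2, 6, 8, 4, 6, 2 of `0, 2, 6, 8` have no prime factor `≥ 5`), so the factors are `8`, `27/16` and `p³ (p - 4)/(p - 1)⁴`: `CF Q1 x = (27/2) KQ (x + 1)` for `x ≥ 3`. For `Q2`: differences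
4, 6, 10, 2, 6, 4 of `0, 4, 6, 10`: `ω(2) = 1`, `ω(3) = 2`, `ω(5) = 3`, `ω(p) = 4` for `p ≥ 7`; the factor at `5` is `(2/5)/(4/5)⁴`, twice that of `Q1`: `CF Q2 x = 27 KQ (x + 1)` for `x ≥ 5`. Convergence and positivity:
`Pool.Agent.H559.PV.CF_conv' Q1` (`PV/SPos.lean`). `Sys`: the polynomials are irreducible (degree 1, monic: `irreducible_of_degree_eq_one_of_monic` or `Polynomial.Monic.irreducible_of_...`; e.g. `X + C a = X - C (-a)`, `irreducible_X_sub_C`), and `f ≠ -g` (leading coefficients).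
`∏ f ∈ F, (f.natDegree * L) = L ^ 4`. -/
def S_quad : Prop := Sys Q1 ∧ Sys Q2 ∧ (∀ L : ℝ, ∏ f ∈ Q1, ((f.natDegree : ℝ) * L) = L ^ 4) ∧ (∀ L : ℝ, ∏ f ∈ Q2, ((f.natDegree : ℝ) * L) = L ^ 4) ∧
  ∃ K : ℝ, 0 < K ∧ Tendsto KQ atTop (𝓝 K) ∧ Tendsto (CF Q1) atTop (𝓝 (27 / 2 * K)) ∧ Tendsto (CF Q2) atTop (𝓝 (27 * K)) ∧
  (∀ (A : Set ℕ) (Y y : ℕ), cI A Q1 Y y = {v : ℕ | Y < v ∧ v ≤ Y + y ∧ v ∈ A ∧ v + 2 ∈ A ∧ v + 6 ∈ A ∧ v + 8 ∈ A}.ncard) ∧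
  (∀ (A : Set ℕ) (Y y : ℕ), cI A Q2 Y y = {v : ℕ | Y < v ∧ v ≤ Y + y ∧ v ∈ A ∧ v + 4 ∈ A ∧ v + 6 ∈ A ∧ v + 10 ∈ A}.ncard)

end Pool.Agent.H559.BI
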