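import Pool.Agent.H559.BI.QStm

set_option autoImplicit false

/-! # The constants of the two quadruple shapes -/

open Finset Filter Topology Polynomial
open Pool.Agent.H559.HY (Sys CF omF)

namespace Pool.Agent.H559.BI

namespace Quad

/-- the system of the shifts in `H` -/
noncomputable def FH (H : Finset ℤ) : Finset ℤ[X] := H.image fun h => X + C h

theorem inj : Function.Injective fun h : ℤ => (X + C h : ℤ[X]) := fun _ _ h =>
  C_injective (add_left_cancel h)

theorem deg (h : ℤ) : (X + C h : ℤ[X]).natDegree = 1 := natDegree_X_add_C h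

theorem card_FH (H : Finset ℤ) : (FH H).card = H.card :=
  Finset.card_image_of_injective _ inj

theorem sys_FH (H : Finset ℤ) : Sys (FH H) := by
  constructor
  · intro f hf
    obtain ⟨h, _, rfl⟩ := Finset.mem_image.1 hf
    constructor
    · have e : (X + C h : ℤ[X]) = X - C (-h) := by
        rw [C_neg, sub_neg_eq_add]
      show Irreducible (X + C h : ℤ[X])
      rw [e]
      exact irreducible_X_sub_C _
    · show 0 < (X + C h : ℤ[X]).natDegree
      rw [deg]
      exact one_pos
  · intro f hf g hg _ he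
    obtain ⟨a, _, rfl⟩ := Finset.mem_image.1 hf
    obtain ⟨b, _, rfl⟩ := Finset.mem_image.1 hg
    have h1 := congrArg leadingCoeff he
    simp only [leadingCoeff_neg] at h1
    rw [leadingCoeff_X_add_C, leadingCoeff_X_add_C] at h1
    omega

theorem prod_deg (H : Finset ℤ) (L : ℝ) :
    ∏ f ∈ FH H, ((f.natDegree : ℝ) * L) = L ^ H.card := by
  unfold FH
  rw [Finset.prod_image fun a _ b _ h => inj h]
  simp only [deg]
  rw [Finset.prod_const]
  norm_num

theorem prod_eval (H : Finset ℤ) (n : ℤ) :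
    ∏ f ∈ FH H, f.eval n = ∏ h ∈ H, (n + h) := by
  unfold FH
  rw [Finset.prod_image fun a _ b _ h => inj h]
  simp

theorem omF_FH (H : Finset ℤ) (p : ℕ) :
    omF (FH H) p = ((range p).filter fun n : ℕ => (p : ℤ) ∣ ∏ h ∈ H, ((n : ℤ) + h)).card := by
  unfold omF
  simp only [prod_eval]

theorem om_card (H : Finset ℤ) {p : ℕ} (hp : p.Prime)
    (hinj : ∀ a ∈ H, ∀ b ∈ H, a ≠ b → ¬ (p : ℤ) ∣ a - b) :
    omF (FH H) p = H.card := by
  rw [omF_FH]
  have hp0 : (0 : ℤ) < p := by exact_mod_cast hp.pos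
  have hpp : Prime (p : ℤ) := Nat.prime_iff_prime_int.1 hp
  have hdvd : ∀ h : ℤ, (p : ℤ) ∣ ((-h) % p) + h := by
    intro h
    have e : ((-h) % p) + h = -(p * ((-h) / p)) := by
      have := Int.emod_add_mul_ediv (-h) p
      linarith
    rw [e]
    exact (Dvd.intro _ rfl).neg_right
  symm
  refine Finset.card_bij (fun h _ => ((-h) % p).toNat) ?_ ?_ ?_
  · intro h hh
    have h1 : 0 ≤ (-h) % (p : ℤ) := Int.emod_nonneg _ hp0.ne'
    have h2 : (-h) % (p : ℤ) < p := Int.emod_lt_of_pos _ hp0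
    rw [Finset.mem_filter, Finset.mem_range]
    refine ⟨by omega, ?_⟩
    rw [hpp.dvd_finsetProd_iff]
    refine ⟨h, hh, ?_⟩
    rw [Int.toNat_of_nonneg h1]
    exact hdvd h
  · intro a ha b hb hab
    by_contra hne
    have h1 : 0 ≤ (-a) % (p : ℤ) := Int.emod_nonneg _ hp0.ne'
    have h2 : 0 ≤ (-b) % (p : ℤ) := Int.emod_nonneg _ hp0.ne'
    have h3 : (-a) % (p : ℤ) = (-b) % (p : ℤ) := by
      have h4 : (((-a) % (p : ℤ)).toNat : ℤ) = (((-b) % (p : ℤ)).toNat : ℤ) := by
        exact_mod_cast hab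
      rwa [Int.toNat_of_nonneg h1, Int.toNat_of_nonneg h2] at h4
    refine hinj a ha b hb hne ?_
    have h5 := dvd_sub (hdvd a) (hdvd b)
    rw [h3] at h5
    have e : (-b) % (p : ℤ) + a - ((-b) % (p : ℤ) + b) = a - b := by ring
    rwa [e] at h5
  · intro n hn
    rw [Finset.mem_filter, Finset.mem_range, hpp.dvd_finsetProd_iff] at hn
    obtain ⟨hnp, h, hh, hd⟩ := hn
    refine ⟨h, hh, ?_⟩
    have h1 : (-h) % (p : ℤ) = n := by
      have h2 := dvd_sub (hdvd h) hd
      have e : (-h) % (p : ℤ) + h - ((n : ℤ) + h) = (-h) % (p : ℤ) - n := by ring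
      rw [e] at h2
      have h3 : 0 ≤ (-h) % (p : ℤ) := Int.emod_nonneg _ hp0.ne'
      have h4 : (-h) % (p : ℤ) < p := Int.emod_lt_of_pos _ hp0
      have h5 : (-h) % (p : ℤ) - n = 0 := by
        refine Int.eq_zero_of_abs_lt_dvd h2 ?_
        rw [abs_lt]
        constructor <;> omega
      linarith
    show ((-h) % (p : ℤ)).toNat = n
    rw [h1]
    exact Int.toNat_natCast n

def H1 : Finset ℤ := {0, 2, 6, 8}
def H2 : Finset ℤ := {0, 4, 6, 10}

theorem Q1_eq : Q1 = FH H1 := by
  unfold Q1 FH H1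
  rw [Finset.image_insert, Finset.image_insert, Finset.image_insert, Finset.image_singleton,
    C_0, add_zero]

theorem Q2_eq : Q2 = FH H2 := by
  unfold Q2 FH H2
  rw [Finset.image_insert, Finset.image_insert, Finset.image_insert, Finset.image_singleton,
    C_0, add_zero]

theorem c1 : H1.card = 4 := by decide
theorem c2 : H2.card = 4 := by decide

/-- a prime `≥ 7` divides no small difference -/
theorem small {p : ℕ} (hp : p.Prime) (h7 : 7 ≤ p) {k : ℤ} (hk : k ≠ 0) (hk2 : |k| ≤ 10)
    (hk3 : k % 2 = 0) : ¬ (p : ℤ) ∣ k := by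
  rintro ⟨c, hc⟩
  have hp0 : (7 : ℤ) ≤ p := by exact_mod_cast h7
  have hc0 : c ≠ 0 := by
    rintro rfl
    exact hk (by rw [hc, mul_zero])
  have h1 : |k| = p * |c| := by
    rw [hc, abs_mul, abs_of_nonneg (by linarith : (0 : ℤ) ≤ p)]
  have h2 : 1 ≤ |c| := Int.one_le_abs hc0
  have h3 : |c| < 2 := by
    by_contra h
    have h4 : 2 ≤ |c| := not_lt.1 h
    nlinarith
  have h4 : |c| = 1 := by omega
  rw [h4, mul_one] at h1
  have h5 : (p : ℤ) % 2 = 1 := by
    have h6 := hp.eq_two_or_odd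
    omega
  have h6 : |k| % 2 = 0 := by
    rcases abs_choice k with h | h
    · rw [h]
      exact hk3
    · rw [h]
      omega
  omega

theorem om1_ge {p : ℕ} (hp : p.Prime) (h5 : 5 ≤ p) : omF (FH H1) p = 4 := by
  rw [← c1]
  refine om_card H1 hp ?_
  rcases Nat.lt_or_ge p 7 with h | h
  · have : p = 5 := by
      have h6 : p ≠ 6 := by
        rintro rfl
        revert hp
        decide
      omega
    subst this
    decide
  · intro a ha b hb hab
    refine small hp h (sub_ne_zero.2 hab) ?_ ?_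
    · revert a b
      decide
    · revert a b
      decide

theorem om2_ge {p : ℕ} (hp : p.Prime) (h7 : 7 ≤ p) : omF (FH H2) p = 4 := by
  rw [← c2]
  refine om_card H2 hp ?_
  intro a ha b hb hab
  refine small hp h7 (sub_ne_zero.2 hab) ?_ ?_
  · revert a b
    decide
  · revert a b
    decide

theorem om1_2 : omF (FH H1) 2 = 1 := by
  rw [omF_FH]
  decide

theorem om1_3 : omF (FH H1) 3 = 2 := by
  rw [omF_FH]
  decide

theorem om2_2 : omF (FH H2) 2 = 1 := by
  rw [omF_FH]
  decide

theorem om2_3 : omF (FH H2) 3 = 2 := by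
  rw [omF_FH]
  decide

theorem om2_5 : omF (FH H2) 5 = 3 := by
  rw [omF_FH]
  decide

theorem gt_three {q : ℕ} (hq : q.Prime) : q = 2 ∨ q = 3 ∨ 3 < q := by
  have := hq.two_le
  omega

theorem split3 {x : ℕ} (hx : 3 ≤ x) : (range (x + 1)).filter Nat.Prime =
    insert 2 (insert 3 ((range (x + 1)).filter fun q => q.Prime ∧ 3 < q)) := by
  ext q
  simp only [Finset.mem_filter, Finset.mem_insert, Finset.mem_range]
  constructor
  · rintro ⟨h1, h2⟩
    rcases gt_three h2 with h | h | h
    · exact Or.inl h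
    · exact Or.inr (Or.inl h)
    · exact Or.inr (Or.inr ⟨h1, h2, h⟩)
  · rintro (h | h | ⟨h1, h2, _⟩)
    · subst h
      exact ⟨by omega, Nat.prime_two⟩
    · subst h
      exact ⟨by omega, Nat.prime_three⟩
    · exact ⟨h1, h2⟩

theorem split5 {x : ℕ} (hx : 5 ≤ x) : ((range (x + 1)).filter fun q => q.Prime ∧ 3 < q) =
    insert 5 ((range (x + 1)).filter fun q => q.Prime ∧ 5 < q) := by
  ext q
  simp only [Finset.mem_filter, Finset.mem_insert, Finset.mem_range]
  constructor
  · rintro ⟨h1, h2, h3⟩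
    rcases Nat.lt_or_ge 5 q with h | h
    · exact Or.inr ⟨h1, h2, h⟩
    · left
      have h4 : q ≠ 4 := by
        rintro rfl
        revert h2
        decide
      omega
  · rintro (h | ⟨h1, h2, h3⟩)
    · subst h
      exact ⟨by omega, by decide, by omega⟩
    · exact ⟨h1, h2, by omega⟩

/-- the factor of the constant -/
noncomputable def fac (F : Finset ℤ[X]) (p : ℕ) : ℝ :=
  (1 - (omF F p : ℝ) / p) / (1 - 1 / (p : ℝ)) ^ F.card

theorem fac_four {F : Finset ℤ[X]} {p : ℕ} (hF : F.card = 4) (ho : omF F p = 4) (hp : 3 < p) :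
    fac F p = (p : ℝ) ^ 3 * (p - 4) / (p - 1) ^ 4 := by
  unfold fac
  rw [hF, ho]
  have h0 : (3 : ℝ) < p := by exact_mod_cast hp
  have h1 : (p : ℝ) ≠ 0 := by positivity
  have h2 : (p : ℝ) - 1 ≠ 0 := by
    have : (0 : ℝ) < p - 1 := by linarith
    exact this.ne'
  have h3 : 1 - 1 / (p : ℝ) = (p - 1) / p := by field_simp
  rw [h3, div_pow]
  push_cast
  field_simp

theorem CF_eq3 (F : Finset ℤ[X]) {x : ℕ} (hx : 3 ≤ x) : CF F x =
    fac F 2 * (fac F 3 * ∏ q ∈ (range (x + 1)).filter (fun q => q.Prime ∧ 3 < q), fac F q) := by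
  have h : CF F x = ∏ p ∈ (range (x + 1)).filter Nat.Prime, fac F p := rfl
  rw [h, split3 hx, Finset.prod_insert, Finset.prod_insert]
  · simp
  · simp

theorem CF1 {x : ℕ} (hx : 3 ≤ x) : CF (FH H1) x = 27 / 2 * KQ (x + 1) := by
  rw [CF_eq3 _ hx]
  have hc : (FH H1).card = 4 := by rw [card_FH, c1]
  have e : ∏ q ∈ (range (x + 1)).filter (fun q => q.Prime ∧ 3 < q), fac (FH H1) q =
      KQ (x + 1) := by
    unfold KQ
    refine Finset.prod_congr rfl fun q hq => ?_
    have hq' := (Finset.mem_filter.1 hq).2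
    have h5 : 5 ≤ q := by
      have h4 : q ≠ 4 := by
        rintro rfl
        exact absurd hq'.1 (by decide)
      omega
    exact fac_four hc (om1_ge hq'.1 h5) hq'.2
  rw [e]
  unfold fac
  rw [hc, om1_2, om1_3]
  push_cast
  norm_num
  ring

theorem CF2 {x : ℕ} (hx : 5 ≤ x) : CF (FH H2) x = 27 * KQ (x + 1) := by
  rw [CF_eq3 _ (by omega)]
  have hc : (FH H2).card = 4 := by rw [card_FH, c2]
  have e : ∏ q ∈ (range (x + 1)).filter (fun q => q.Prime ∧ 3 < q), fac (FH H2) q =
      2 * KQ (x + 1) := by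
    unfold KQ
    rw [split5 hx, Finset.prod_insert (by simp), Finset.prod_insert (by simp)]
    have e2 : ∏ q ∈ (range (x + 1)).filter (fun q => q.Prime ∧ 5 < q), fac (FH H2) q =
        ∏ q ∈ (range (x + 1)).filter (fun q => q.Prime ∧ 5 < q),
          (q : ℝ) ^ 3 * (q - 4) / (q - 1) ^ 4 := by
      refine Finset.prod_congr rfl fun q hq => ?_
      have hq' := (Finset.mem_filter.1 hq).2
      have h7 : 7 ≤ q := by
        have h6 : q ≠ 6 := by
          rintro rfl
          exact absurd hq'.1 (by decide)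
        omega
      exact fac_four hc (om2_ge hq'.1 h7) (by omega)
    rw [e2]
    have e3 : fac (FH H2) 5 = 2 * (((5 : ℕ) : ℝ) ^ 3 * (((5 : ℕ) : ℝ) - 4) /
        (((5 : ℕ) : ℝ) - 1) ^ 4) := by
      unfold fac
      rw [hc, om2_5]
      push_cast
      norm_num
    rw [e3]
    ring
  rw [e]
  unfold fac
  rw [hc, om2_2, om2_3]
  push_cast
  norm_num
  ring

theorem om1_lt (p : ℕ) (hp : p.Prime) : omF (FH H1) p < p := by
  rcases gt_three hp with h | h | h
  · subst h
    rw [om1_2]
    omega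
  · subst h
    rw [om1_3]
    omega
  · have h5 : 5 ≤ p := by
      have h4 : p ≠ 4 := by
        rintro rfl
        exact absurd hp (by decide)
      omega
    rw [om1_ge hp h5]
    omega

end Quad

open Quad

theorem t_quad : S_quad := by
  have hS1 : Sys Q1 := Q1_eq ▸ sys_FH H1
  have hS2 : Sys Q2 := Q2_eq ▸ sys_FH H2
  refine ⟨hS1, hS2, ?_, ?_, ?_⟩
  · intro L
    rw [Q1_eq, prod_deg, c1]
  · intro L
    rw [Q2_eq, prod_deg, c2]
  · obtain ⟨S, hS, hpos⟩ := Pool.Agent.H559.PV.CF_conv' (FH H1) (sys_FH H1)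
    have hS0 : 0 < S := hpos om1_lt
    have hK : Tendsto KQ atTop (𝓝 (2 / 27 * S)) := by
      rw [← tendsto_add_atTop_iff_nat 1]
      refine (hS.const_mul (2 / 27)).congr' ?_
      filter_upwards [eventually_ge_atTop 3] with x hx
      rw [CF1 hx]
      ring
    refine ⟨2 / 27 * S, by positivity, hK, ?_, ?_, ?_, ?_⟩
    · rw [Q1_eq]
      have e : 27 / 2 * (2 / 27 * S) = S := by ring
      rw [e]
      exact hS
    · rw [Q2_eq]
      refine (((tendsto_add_atTop_iff_nat 1).2 hK).const_mul 27).congr' ?_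
      filter_upwards [eventually_ge_atTop 5] with x hx
      exact (CF2 hx).symm
    · intro A Y y
      unfold cI
      congr 1
      ext n
      simp only [Q1, Set.mem_ofPred_eq, Finset.mem_insert, Finset.mem_singleton, forall_eq_or_imp,
        forall_eq, eval_add, eval_X, eval_C]
      have e0 : ((n : ℤ)).natAbs = n := Int.natAbs_natCast n
      have e1 : ((n : ℤ) + 2).natAbs = n + 2 := by omega
      have e2 : ((n : ℤ) + 6).natAbs = n + 6 := by omega
      have e3 : ((n : ℤ) + 8).natAbs = n + 8 := by omega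
      rw [e0, e1, e2, e3]
    · intro A Y y
      unfold cI
      congr 1
      ext n
      simp only [Q2, Set.mem_ofPred_eq, Finset.mem_insert, Finset.mem_singleton, forall_eq_or_imp,
        forall_eq, eval_add, eval_X, eval_C]
      have e0 : ((n : ℤ)).natAbs = n := Int.natAbs_natCast n
      have e1 : ((n : ℤ) + 4).natAbs = n + 4 := by omega
      have e2 : ((n : ℤ) + 6).natAbs = n + 6 := by omega
      have e3 : ((n : ℤ) + 10).natAbs = n + 10 := by omega
      rw [e0, e1, e2, e3]

end Pool.Agent.H559.BI
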