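import Pool.Agent.H559.BI.Stm

set_option autoImplicit false

/-! # The formula of Bateman and Horn along shifted systems (helper113) -/

open Finset Filter Topology Polynomial
open Pool.Agent.T2H32.BF (V V_pos V_anti V_ratio recip_le mertens)
open Pool.Agent.H559.BS (Limit TT TT_le TT_ge TT_top log_TT V_TT log_pow_le log_top g g_pos)
open Pool.Agent.H559.HY (Arr evl rts arr Sg cnt RS box mem_box Cut OK Good Sys CF growth log_lin div_lim mul_lim
  Sg_nonneg)

namespace Pool.Agent.H559.BI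

namespace Seq

variable {k : ℕ}

theorem alg1 (c x S P L E : ℝ) (hx : 0 < x) :
    (c * (x * (S * P)) - x / E) * L / x = c * (S * (P * L)) - L / E := by
  rw [div_eq_iff hx.ne']
  ring

theorem alg2 (c x S P L E : ℝ) (hx : 0 < x) :
    (c * (x * (S * P)) + x / E) * L / x = c * (S * (P * L)) + L / E := by
  rw [div_eq_iff hx.ne']
  ring

theorem TT_half : ∀ᶠ x : ℕ in atTop, TT (1 / 4) x ≤ x / 2 := by
  have h1 : Tendsto (fun n : ℕ => (n : ℝ) ^ (1 / 4 : ℝ)) atTop atTop :=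
      (tendsto_rpow_atTop (by norm_num)).comp tendsto_natCast_atTop_atTop
  filter_upwards [h1.eventually_ge_atTop 2, eventually_ge_atTop 1] with x hx hx1
  have hx0 : (0 : ℝ) < x := by exact_mod_cast hx1
  have h2 : (TT (1 / 4) x : ℝ) * (2 : ℕ) ≤ x := by
    have h3 := TT_le (1 / 4) x
    have h4 : (x : ℝ) = (x : ℝ) ^ (1 / 4 : ℝ) * (x : ℝ) ^ (1 / 4 : ℝ) *
        ((x : ℝ) ^ (1 / 4 : ℝ) * (x : ℝ) ^ (1 / 4 : ℝ)) := by
      rw [← Real.rpow_add hx0, ← Real.rpow_add hx0]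
      norm_num
    have h5 : (x : ℝ) ^ (1 / 4 : ℝ) * 2 ≤ (x : ℝ) ^ (1 / 4 : ℝ) * (x : ℝ) ^ (1 / 4 : ℝ) := by nlinarith
    have h6 : (x : ℝ) ^ (1 / 4 : ℝ) * (x : ℝ) ^ (1 / 4 : ℝ) * 1 ≤ (x : ℝ) ^ (1 / 4 : ℝ) * (x : ℝ) ^ (1 / 4 : ℝ) *
        ((x : ℝ) ^ (1 / 4 : ℝ) * (x : ℝ) ^ (1 / 4 : ℝ)) :=
      mul_le_mul_of_nonneg_left (by nlinarith) (by nlinarith)
    rw [← h4] at h6
    push_cast
    linarith
  rw [Nat.le_div_iff_mul_le (by omega)]
  exact_mod_cast h2

theorem prodlim (d : Fin k → ℕ) (hd : ∀ i, 0 < d i) (U : Fin k → ℕ → ℝ) (Lg : ℕ → ℝ)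
    (h : ∀ i, Tendsto (fun x => U i x * Lg x) atTop (𝓝 (1 / d i))) :
    Tendsto (fun x => (∏ i, U i x) * ∏ i, ((d i : ℝ) * Lg x)) atTop (𝓝 1) := by
  have h1 : Tendsto (fun x => ∏ i, (U i x * Lg x * d i)) atTop (𝓝 (∏ i, (1 / (d i : ℝ) * d i))) :=
    tendsto_finsetProd _ fun i _ => (h i).mul_const _
  have h2 : ∏ i, (1 / (d i : ℝ) * d i) = 1 := prod_eq_one fun i _ => by
    have : (d i : ℝ) ≠ 0 := by exact_mod_cast (hd i).ne'
    field_simp
  rw [h2] at h1
  refine h1.congr fun x => ?_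
  rw [← prod_mul_distrib]
  exact prod_congr rfl fun i _ => by ring

theorem errlim (d : Fin k → ℕ) (A : ℕ) (Y : ℕ → ℕ) (hY1 : ∀ᶠ x in atTop, x ≤ Y x)
    (hY2 : ∀ᶠ x : ℕ in atTop, Y x ≤ x ^ A) :
    Tendsto (fun x : ℕ => (∏ i, ((d i : ℝ) * Real.log (Y x))) / Real.log x ^ (k + 1)) atTop (𝓝 0) := by
  have hE : Tendsto (fun x : ℕ => Real.log (Y x) ^ k / Real.log x ^ (k + 1)) atTop (𝓝 0) := by
    have h1 : Tendsto (fun x : ℕ => (A : ℝ) ^ k / Real.log x) atTop (𝓝 0) := tendsto_const_nhds.div_atTop log_top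
    refine squeeze_zero' ?_ ?_ h1
    · filter_upwards with x
      have h2 := Real.log_natCast_nonneg x
      have h3 := Real.log_natCast_nonneg (Y x)
      positivity
    · filter_upwards [hY1, hY2, log_top.eventually_ge_atTop 1, eventually_ge_atTop 1] with x a1 a2 a3 a4
      have hX0 : (0 : ℝ) < Y x := by exact_mod_cast (by omega : 0 < Y x)
      have h2 : Real.log (Y x) ≤ A * Real.log x := by
        rw [← Real.log_pow]
        refine Real.log_le_log hX0 ?_
        exact_mod_cast a2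
      have h3 := Real.log_natCast_nonneg (Y x)
      have hL : 0 < Real.log x := by linarith
      rw [pow_succ, ← div_div]
      rw [div_le_div_iff_of_pos_right hL, div_le_iff₀ (by positivity), ← mul_pow]
      exact pow_le_pow_left₀ h3 h2 k
  have h2 := hE.const_mul (∏ i, (d i : ℝ))
  rw [mul_zero] at h2
  refine h2.congr fun x => ?_
  rw [prod_mul_distrib, prod_const, card_univ, Fintype.card_fin]
  ring

end Seq

open Pool.Agent.H559.BI.Seq in
theorem t_seq (hi : S_inv) : S_seq := by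
  intro k D z W hz hW b hOK f hD hd hl hinj S hS A hA Y hY1 hY2
  obtain ⟨i1, ⟨P0, i2⟩, ⟨K, i3⟩, i4⟩ := hi k D f hD hd hinj
  have hYt : Tendsto Y atTop atTop := tendsto_atTop_mono' atTop hY1 tendsto_id
  have hWt : Tendsto (fun x : ℕ => W (TT (1 / 4) x)) atTop atTop := by
    have h1 : Tendsto (fun n : ℕ => (W n : ℝ)) atTop atTop := by
      have h2 := hW.top.atTop_mul_atTop₀ log_top
      refine h2.congr' ?_
      filter_upwards [log_top.eventually_ge_atTop 1] with n hn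
      rw [div_mul_cancel₀ _ (by linarith : Real.log n ≠ 0)]
    exact (tendsto_natCast_atTop_iff.1 h1).comp (TT_top (1 / 4) (by norm_num))
  have hS' := hS.comp hWt
  -- bounds for the values
  have hgr : ∀ᶠ m : ℕ in atTop, ∀ i, (m : ℝ) ^ (f i).natDegree / 2 ≤ (((f i).eval (m : ℤ) : ℤ) : ℝ) ∧
      (((f i).eval (m : ℤ) : ℤ) : ℝ) ≤ 2 * (f i).leadingCoeff * (m : ℝ) ^ (f i).natDegree :=
    eventually_all.2 fun i => growth (f i) (hd i) (hl i)
  obtain ⟨m0, hm0⟩ := eventually_atTop.1 hgr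
  set H : ℕ := ∑ i, 2 * (f i).leadingCoeff.natAbs + 1 with hH
  have hHi : ∀ i, 2 * ((f i).leadingCoeff : ℝ) ≤ H := by
    intro i
    have h1 : 2 * (f i).leadingCoeff.natAbs ≤ ∑ i, 2 * (f i).leadingCoeff.natAbs :=
      single_le_sum (f := fun i => 2 * (f i).leadingCoeff.natAbs) (fun _ _ => Nat.zero_le _) (mem_univ i)
    have h2 : ((f i).leadingCoeff : ℝ) = ((f i).leadingCoeff.natAbs : ℝ) := by
      rw [Nat.cast_natAbs, abs_of_pos (hl i)]
    rw [h2]
    exact_mod_cast (show 2 * (f i).leadingCoeff.natAbs ≤ H by omega)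
  have hH1 : 1 ≤ H := by omega
  have hlow : ∀ y m : ℕ, m0 ≤ m → y ≤ m → ∀ i,
      (((y / 2) ^ (f i).natDegree : ℕ) : ℤ) ≤ (f i).eval (m : ℤ) := by
    intro y m hm hym i
    have h1 := (hm0 m hm i).1
    have h2 : ((m : ℝ) / 2) ^ (f i).natDegree ≤ (m : ℝ) ^ (f i).natDegree / 2 := by
      rw [div_pow]
      have h3 : (2 : ℝ) ≤ 2 ^ (f i).natDegree := by
        calc (2 : ℝ) = 2 ^ 1 := by norm_num
          _ ≤ 2 ^ (f i).natDegree := pow_le_pow_right₀ (by norm_num) (hd i)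
      gcongr
    have h5 : ((y / 2 : ℕ) : ℝ) ≤ (m : ℝ) / 2 := by
      have h7 : ((y / 2 : ℕ) : ℝ) * 2 ≤ m := by exact_mod_cast (by omega : y / 2 * 2 ≤ m)
      linarith
    have h6 : ((((y / 2) ^ (f i).natDegree : ℕ) : ℤ) : ℝ) ≤ (((f i).eval (m : ℤ) : ℤ) : ℝ) := by
      rw [Int.cast_natCast, Nat.cast_pow]
      exact (pow_le_pow_left₀ (Nat.cast_nonneg _) h5 _).trans (h2.trans h1)
    exact Int.cast_le.1 h6
  have hup : ∀ y m : ℕ, m0 ≤ m → m ≤ 2 * y → ∀ i,
      (f i).eval (m : ℤ) ≤ (((2 * H * y) ^ (f i).natDegree : ℕ) : ℤ) := by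
    intro y m hm hmy i
    have h1 := (hm0 m hm i).2
    have hH1' : (1 : ℝ) ≤ H := by exact_mod_cast hH1
    have hmx' : (m : ℝ) ≤ 2 * y := by exact_mod_cast hmy
    have h6 : (((f i).eval (m : ℤ) : ℤ) : ℝ) ≤ ((((2 * H * y) ^ (f i).natDegree : ℕ) : ℤ) : ℝ) := by
      rw [Int.cast_natCast, Nat.cast_pow]
      refine h1.trans ?_
      have e : ((2 * H * y : ℕ) : ℝ) = (H : ℝ) * (2 * y) := by
        push_cast
        ring
      rw [e, mul_pow]
      have h2 : (H : ℝ) ≤ (H : ℝ) ^ (f i).natDegree := le_self_pow₀ hH1' (by have := hd i; omega)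
      have h3 := (hHi i).trans h2
      gcongr
    exact Int.cast_le.1 h6
  -- the densities
  have hV1 : ∀ i, Tendsto (fun x => V (z ((Y x / 2) ^ (f i).natDegree)) * Real.log (Y x)) atTop
      (𝓝 (1 / (f i).natDegree)) := fun i =>
    (log_lin (fun x => x / 2) _ (hd i) z hz (div_lim 2 (by norm_num)).1 (div_lim 2 (by norm_num)).2).comp hYt
  have hV2 : ∀ i, Tendsto (fun x => V (z ((2 * H * Y x) ^ (f i).natDegree)) * Real.log (Y x)) atTop
      (𝓝 (1 / (f i).natDegree)) := fun i =>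
    (log_lin (fun x => 2 * H * x) _ (hd i) z hz (mul_lim (2 * H) (by omega)).1 (mul_lim (2 * H) (by omega)).2).comp hYt
  have hP1 := prodlim (fun i => (f i).natDegree) hd _ _ hV1
  have hP2 := prodlim (fun i => (f i).natDegree) hd _ _ hV2
  have hE := errlim (fun i => (f i).natDegree) A Y hY1 hY2
  -- the two bounds
  have key : ∀ n : ℕ, ∃ U Lw : ℕ → ℝ, Tendsto U atTop (𝓝 ((1 + 1 / ((n : ℝ) + 1)) * S)) ∧
      Tendsto Lw atTop (𝓝 ((1 - 1 / ((n : ℝ) + 1)) * S)) ∧
      ∀ᶠ x : ℕ in atTop, Lw x ≤ (cnt (arr D (shp f (Y x))) (RS z W b) 0 x : ℝ) *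
          (∏ i, ((f i).natDegree * Real.log (Y x))) / x ∧
        (cnt (arr D (shp f (Y x))) (RS z W b) 0 x : ℝ) *
          (∏ i, ((f i).natDegree * Real.log (Y x))) / x ≤ U x := by
    intro n
    refine ⟨fun x => (1 + 1 / ((n : ℝ) + 1)) * (Sg (arr D f) (W (TT (1 / 4) x)) *
        ((∏ i, V (z ((Y x / 2) ^ (f i).natDegree))) * ∏ i, (((f i).natDegree : ℝ) * Real.log (Y x)))) +
        (∏ i, (((f i).natDegree : ℝ) * Real.log (Y x))) / Real.log x ^ (k + 1), fun x => (1 - 1 / ((n : ℝ) + 1)) *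
        (Sg (arr D f) (W (TT (1 / 4) x)) *
        ((∏ i, V (z ((2 * H * Y x) ^ (f i).natDegree))) * ∏ i, (((f i).natDegree : ℝ) * Real.log (Y x)))) -
        (∏ i, (((f i).natDegree : ℝ) * Real.log (Y x))) / Real.log x ^ (k + 1), ?_, ?_, ?_⟩
    · have h1 := ((hS'.mul hP1).const_mul (1 + 1 / ((n : ℝ) + 1))).add hE
      rw [mul_one, add_zero] at h1
      exact h1
    · have h1 := ((hS'.mul hP2).const_mul (1 - 1 / ((n : ℝ) + 1))).sub hE
      rw [mul_one, sub_zero] at h1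
      exact h1
    · filter_upwards [hY1, hY2, hOK k D ((A + 1) * D + 1) P0 (k + 1) n (by omega), TT_half,
        eventually_ge_atTop (m0 + 2 * H + K + 3), log_top.eventually_ge_atTop 1] with x a1 a2 a3 a4 a5 a6
      have hx0 : (0 : ℝ) < x := by exact_mod_cast (by omega : 0 < x)
      have hbox : arr D (shp f (Y x)) ∈ box k D (x ^ ((A + 1) * D + 1)) := by
        have h1 := i3 (Y x) (by omega)
        rw [mem_box] at h1 ⊢
        intro i j
        refine (h1 i j).trans ?_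
        have h2 : K * Y x ^ D ≤ x ^ ((A + 1) * D + 1) := by
          calc K * Y x ^ D ≤ x * (x ^ A) ^ D := Nat.mul_le_mul (by omega) (Nat.pow_le_pow_left a2 D)
            _ = x ^ (A * D + 1) := by rw [← pow_mul, pow_succ, mul_comm]
            _ ≤ x ^ ((A + 1) * D + 1) := Nat.pow_le_pow_right (by omega) (by
                rw [Nat.add_mul]
                omega)
        exact_mod_cast h2
      have hhi : ∀ i, (2 * H * Y x) ^ (f i).natDegree ≤ x ^ ((A + 1) * D + 1) := by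
        intro i
        calc (2 * H * Y x) ^ (f i).natDegree ≤ (x * x ^ A) ^ (f i).natDegree :=
              Nat.pow_le_pow_left (Nat.mul_le_mul (by omega) a2) _
          _ = x ^ ((A + 1) * (f i).natDegree) := by rw [← pow_succ', ← pow_mul]
          _ ≤ x ^ ((A + 1) * D + 1) := Nat.pow_le_pow_right (by omega) (by
              have := Nat.mul_le_mul_left (A + 1) (hD i)
              omega)
      have hlo : ∀ i, TT (1 / 4) x ≤ (Y x / 2) ^ (f i).natDegree := fun i =>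
        (a4.trans (Nat.div_le_div_right a1)).trans (Nat.le_self_pow (by have := hd i; omega) _)
      obtain ⟨b1, b2⟩ := a3 (arr D (shp f (Y x))) hbox (fun p hp hlt => i2 (Y x) p hp hlt) 0 x
        (fun i => (Y x / 2) ^ (f i).natDegree) (fun i => (2 * H * Y x) ^ (f i).natDegree) (by omega) le_rfl
        hlo hhi (fun m hm i => by
          rw [mem_Ioc] at hm
          rw [i4]
          exact ⟨hlow _ _ (by omega) (by omega) i, hup _ _ (by omega) (by omega) i⟩)
      rw [i1] at b1 b2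
      have hLk : 0 ≤ ∏ i, (((f i).natDegree : ℝ) * Real.log (Y x)) :=
        prod_nonneg fun i _ => mul_nonneg (Nat.cast_nonneg _) (Real.log_natCast_nonneg _)
      constructor
      · rw [← alg1 _ (x : ℝ) _ _ _ _ hx0]
        refine div_le_div_of_nonneg_right (mul_le_mul_of_nonneg_right ?_ hLk) hx0.le
        exact b1
      · rw [← alg2 _ (x : ℝ) _ _ _ _ hx0]
        refine div_le_div_of_nonneg_right (mul_le_mul_of_nonneg_right ?_ hLk) hx0.le
        exact b2
  have hinv : Tendsto (fun n : ℕ => 1 / ((n : ℝ) + 1)) atTop (𝓝 0) := tendsto_one_div_add_atTop_nhds_zero_nat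
  rw [tendsto_order]
  constructor
  · intro a ha
    have h1 : Tendsto (fun n : ℕ => (1 - 1 / ((n : ℝ) + 1)) * S) atTop (𝓝 ((1 - 0) * S)) :=
      (tendsto_const_nhds.sub hinv).mul_const S
    rw [sub_zero, one_mul] at h1
    obtain ⟨n, hn⟩ := (h1.eventually_const_lt ha).exists
    obtain ⟨U, Lw, _, h3, h4⟩ := key n
    filter_upwards [h3.eventually_const_lt hn, h4] with x b1 b2
    exact lt_of_lt_of_le b1 b2.1
  · intro a ha
    have h1 : Tendsto (fun n : ℕ => (1 + 1 / ((n : ℝ) + 1)) * S) atTop (𝓝 ((1 + 0) * S)) :=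
      (tendsto_const_nhds.add hinv).mul_const S
    rw [add_zero, one_mul] at h1
    obtain ⟨n, hn⟩ := (h1.eventually_lt_const ha).exists
    obtain ⟨U, Lw, h2, _, h4⟩ := key n
    filter_upwards [h2.eventually_lt_const hn, h4] with x b1 b2
    exact lt_of_le_of_lt b2.2 b1

end Pool.Agent.H559.BI
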