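import Pool.Agent.H559.SI.Short
import Pool.Agent.H559.HY.FinBH

set_option autoImplicit false

/-! # The formula of Bateman and Horn in short intervals: the statements -/

open Finset Filter Topology Polynomial
open Pool.Agent.H559.BS (Limit)
open Pool.Agent.H559.HY (Arr evl rts arr Sg cnt RS box Cut OK Good Sys CF)

namespace Pool.Agent.H559.BI

/-- the polynomials `f i (Y + X)` -/
noncomputable def shp {k : ℕ} (f : Fin k → ℤ[X]) (Y : ℕ) : Fin k → ℤ[X] := fun i => (f i).comp (X + C (Y : ℤ))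

/-- INVARIANCE. PROOF. (4) `HY.evl_arr` (the degree of `(f i).comp (X + C Y)` is that of `f i`: `natDegree_comp`, `natDegree_X_add_C`) and `eval_comp`.
(1) `Sg C w` depends only on the cardinalities of `rts C p 0` (`p` prime, `p ≤ w`), the set of the `s < p` with `p ∣ evl (C i) s` for some `i` (`HY.cls_eq_iff`); the map
`s ↦ (s + Y) % p` is a bijection from `rts (arr D (shp f Y)) p 0` to `rts (arr D f) p 0`, as `evl (arr D (shp f Y) i) s = (f i).eval (s + Y) ≡ (f i).eval ((s + Y) % p)` modulo `p`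
(model: `SI.rts_card_sh`, `SI.Sg_sh` in SI/Base.lean). (2) The leading coefficient of `(f i).comp (X + C Y)` is that of `f i`, and `shp f Y i - shp f Y i' = (f i - f i').comp (X + C Y)`
has the leading coefficient of `f i - f i'` (nonzero): follow the proof of `HY.good_arr` (HY/BH.lean), `P0 = ∑ natAbs` of these leading coefficients, independent of `Y`.
(3) The coefficients of `f.comp (X + C Y)`: induction or `Polynomial.coeff` of `∑ a_j (X + Y)^j`: `|coeff| ≤ ∑_j |a_j| 2^j Y^j ≤ (∑_j |a_j| 2^D) Y^D` for `Y ≥ 1` (`Polynomial.coeff_X_add_C_pow`);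
`K` = the sum over `i`. -/
def S_inv : Prop := ∀ (k D : ℕ) (f : Fin k → ℤ[X]), (∀ i, (f i).natDegree ≤ D) → (∀ i, 0 < (f i).natDegree) →
  Function.Injective f →
  (∀ Y w : ℕ, Sg (arr D (shp f Y)) w = Sg (arr D f) w) ∧
  (∃ P0 : ℕ, ∀ Y p : ℕ, p.Prime → P0 < p → Good (arr D (shp f Y)) p) ∧
  (∃ K : ℕ, ∀ Y : ℕ, 1 ≤ Y → arr D (shp f Y) ∈ box k D (K * Y ^ D)) ∧
  ∀ (Y m : ℕ) (i : Fin k), evl (arr D (shp f Y) i) m = (f i).eval ((Y + m : ℕ) : ℤ)

/-- ALONG SEQUENCES. PROOF from `S_inv`: the same as `SI.seq` (SI/Short.lean), with the bounds of the values taken from `HY.bh_pos` (HY/BH.lean). `HY.growth`: for `m ≥ m0` all the values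
`(f i).eval m` are between `m^d/2` and `2 ℓ m^d` (`d` the degree, `ℓ` the leading coefficient of `f i`). For `Y = X x` and `m ∈ (0, x]` the argument `Y + m` is between `Y` and `2 Y`; so with
`H = ∑ 2 ℓ_i + 1` the value is between `lo i = (Y / 2) ^ d` and `hi i = (2 H Y) ^ d`, where `TT (1/4) x ≤ lo i` and `hi i ≤ x ^ A'`, `A' = 2 A D + 2 D + 1` say, `x` large; the coefficients are
`≤ K Y^D ≤ x ^ A'`. `HY.log_lin` applied along `Y = X x` (it needs `log (u x)/log x → 1`; so better prove the version: `u x → ∞`, `log (u x) / log (X x) → 1` gives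
`V (z (u x ^ d)) * log (X x) → 1/d`, by composing `hz.2` with `u ^ d`), for `u = Y / 2` and `u = 2 H Y`. Then `OK` with `B = k + 1`, `P0`, `A'` and every `n`, multiplied by
`∏ (d_i log Y) / x`, and the error `(∏ d_i log Y)/(log x)^(k+1) → 0` as `log Y ≤ A log x`. The singular series at `W (TT (1/4) x)` tends to `S` by `S_inv` (1) (as in `SI.seq`). -/
def S_seq : Prop := ∀ (k D : ℕ) (z W : ℕ → ℕ), Limit z → Cut W → ∀ b : ℕ → ℕ, OK z W b → ∀ f : Fin k → ℤ[X],
  (∀ i, (f i).natDegree ≤ D) → (∀ i, 0 < (f i).natDegree) → (∀ i, 0 < (f i).leadingCoeff) → Function.Injective f →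
  ∀ S : ℝ, Tendsto (fun w : ℕ => Sg (arr D f) w) atTop (𝓝 S) → ∀ A : ℕ, 1 ≤ A → ∀ Y : ℕ → ℕ,
  (∀ᶠ x in atTop, x ≤ Y x) → (∀ᶠ x : ℕ in atTop, Y x ≤ x ^ A) →
  Tendsto (fun x : ℕ => (cnt (arr D (shp f (Y x))) (RS z W b) 0 x : ℝ) * (∏ i, ((f i).natDegree * Real.log (Y x))) / x)
    atTop (𝓝 S)

/-- the number of the `n` in `(Y, Y + y]` for which all the `|f n|` are in `A` -/
noncomputable def cI (A : Set ℕ) (F : Finset ℤ[X]) (Y y : ℕ) : ℕ :=
  {n : ℕ | Y < n ∧ n ≤ Y + y ∧ ∀ f ∈ F, (f.eval (n : ℤ)).natAbs ∈ A}.ncard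

/-- **The formula of Bateman and Horn in all the intervals `(Y, Y + y]`, `Y ^ δ ≤ y ≤ Y`.** PROOF from `S_seq` and `S_inv`. First the uniform version for families `f` (as `SI.short` from
`SI.seq`: choose for every `x` a worst `Y ∈ [x, x^A]`), then `A ≥ 1/δ` and the change of the quantifiers as in `SI.tup` (SI/Tup.lean), and for finite sets `F` of polynomials the family
`HY.fam F` with `D = ∑ degrees` as in `HY.bh` (HY/FinBH.lean: `fam_le`, `fam_deg`, `fam_lead`, `fam_ne`, `prod_fam`, `pos_deg`, `CF_eq`). The counts agree: `m ↦ Y + m`, and for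
`n > Y ≥ n0` the value `(fam F i).eval n` is positive (`HY.growth`), so `((fam F i).eval n).toNat = |f n|` (`HY.pos_eval`); `Y` is large as `y ≤ Y` and `y ≥ Y^δ`. -/
def S_fin : Prop := ∀ z W : ℕ → ℕ, Limit z → Cut W → ∀ b : ℕ → ℕ, OK z W b → ∀ F : Finset ℤ[X], Sys F →
  ∀ S : ℝ, Tendsto (CF F) atTop (𝓝 S) → ∀ δ ε : ℝ, 0 < δ → 0 < ε → ∀ᶠ Y : ℕ in atTop, ∀ y : ℕ, (Y : ℝ) ^ δ ≤ y → y ≤ Y →
  |(cI (RS z W b) F Y y : ℝ) * (∏ f ∈ F, (f.natDegree * Real.log Y)) / y - S| ≤ ε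

end Pool.Agent.H559.BI
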